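import Pool.Agent.Lib.MP_9dcf40_lc.DW.Spec
import Pool.Agent.Lib.MP_9dcf40_lc.DV.Code

/-! # Small circuits, module T3': codes with the exact volume bound -/

namespace SRBP

open Finset

namespace CodebAux

variable {n : ℕ}

open scoped Classical in
/-- The number of small subsets. -/
theorem fewb (n d : ℕ) :
    ((univ : Finset (Finset (Fin n))).filter (fun S => S.card < d)).card ≤ vol n d := by
  have h : (univ : Finset (Finset (Fin n))).filter (fun S => S.card < d) ⊆
      (range d).biUnion (fun i => powersetCard i (univ : Finset (Fin n))) := by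
    intro S hS
    rw [mem_biUnion]
    exact ⟨S.card, mem_range.2 (mem_filter.1 hS).2, mem_powersetCard.2 ⟨subset_univ _, rfl⟩⟩
  refine (card_le_card h).trans (card_biUnion_le.trans (le_of_eq ?_))
  unfold vol
  refine sum_congr rfl fun i _ => ?_
  rw [card_powersetCard, card_univ, Fintype.card_fin]

open scoped Classical in
/-- The number of vectors which agree with `x` outside `V` and differ from it in less than `d` places. -/
theorem ball_leb (d : ℕ) (V : Finset (Fin n)) (x : Fin n → Bool) (S : Finset (Fin n → Bool))
    (h1 : ∀ y ∈ S, ∀ v, v ∉ V → y v = x v)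
    (h2 : ∀ y ∈ S, (V.filter (fun v => x v ≠ y v)).card < d) : S.card ≤ vol n d := by
  refine le_trans ?_ (fewb n d)
  refine card_le_card_of_injOn (fun y => V.filter (fun v => x v ≠ y v)) ?_ ?_
  · intro y hy
    exact mem_filter.2 ⟨mem_univ _, h2 y hy⟩
  · intro y hy y' hy' he
    have he' : V.filter (fun v => x v ≠ y v) = V.filter (fun v => x v ≠ y' v) := he
    funext v
    by_cases hv : v ∈ V
    · have h3 : (v ∈ V.filter (fun v => x v ≠ y v)) ↔ (v ∈ V.filter (fun v => x v ≠ y' v)) := by
        rw [he']
      rw [mem_filter, mem_filter] at h3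
      cases hx : x v <;> cases hy1 : y v <;> cases hy2 : y' v <;> simp_all
    · rw [h1 y hy v hv, h1 y' hy' v hv]

end CodebAux

open scoped Classical in
open CodeAux CodebAux in
theorem tCodeb : S_Codeb := by
  intro n d U hd
  set G : Finset (Finset (Fin n → Bool)) := univ.filter (fun D => Cod d U D) with hG
  have hne : G.Nonempty := by
    refine ⟨{fun _ => false}, mem_filter.2 ⟨mem_univ _, mem_singleton_self _, ?_, ?_, ?_⟩⟩
    · intro x hx y hy
      rw [mem_singleton] at hx hy ⊢
      subst hx
      subst hy
      funext v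
      rfl
    · intro x hx v _
      rw [mem_singleton] at hx
      rw [hx]
    · intro x hx y hy hxy
      rw [mem_singleton] at hx hy
      exact absurd (hx.trans hy.symm) hxy
  obtain ⟨D, hDG, hmax⟩ := exists_max_image G card hne
  have hD : Cod d U D := (mem_filter.1 hDG).2
  refine ⟨D, hD.1, hD.2.1, hD.2.2.1, hD.2.2.2, ?_⟩
  -- the balls cover
  set Z : Finset (Fin n → Bool) := univ.filter (fun z => ∀ v, v ∉ U → z v = false) with hZ
  have hcov : Z ⊆ D.biUnion (fun x => Z.filter (fun z => (U.filter (fun v => x v ≠ z v)).card < d)) := by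
    intro z hz
    by_contra hcon
    rw [mem_biUnion] at hcon
    push Not at hcon
    have hfar : ∀ x ∈ D, d ≤ (U.filter (fun v => x v ≠ z v)).card := by
      intro x hx
      by_contra h
      exact hcon x hx (mem_filter.2 ⟨hz, not_le.1 h⟩)
    obtain ⟨h1, h2⟩ := add_coset hd hD (mem_filter.1 hz).2 hfar
    exact absurd (hmax _ (mem_filter.2 ⟨mem_univ _, h1⟩)) (not_le.2 h2)
  have hZc : 2 ^ U.card ≤ Z.card := by
    rw [← card_powerset]
    refine card_le_card_of_injOn (fun S => fun v => decide (v ∈ S)) ?_ ?_
    · intro S hS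
      refine mem_filter.2 ⟨mem_univ _, fun v hv => ?_⟩
      have : v ∉ S := fun h => hv (mem_powerset.1 hS h)
      simp [this]
    · intro S _ S' _ he
      have he' : (fun v => decide (v ∈ S)) = fun v => decide (v ∈ S') := he
      ext v
      have h1 := congrFun he' v
      simp only [decide_eq_decide] at h1
      exact h1
  have hle : Z.card ≤ D.card * vol n d := by
    refine (card_le_card hcov).trans (card_biUnion_le.trans ?_)
    calc ∑ x ∈ D, (Z.filter (fun z => (U.filter (fun v => x v ≠ z v)).card < d)).card
        ≤ ∑ _x ∈ D, vol n d := by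
          refine sum_le_sum fun x hx => ball_leb d U x _ ?_ ?_
          · intro y hy v hv
            rw [(mem_filter.1 (mem_filter.1 hy).1).2 v hv, hD.2.2.1 x hx v hv]
          · intro y hy
            exact (mem_filter.1 hy).2
      _ = D.card * vol n d := by rw [sum_const, smul_eq_mul]
  exact_mod_cast hZc.trans hle

end SRBP
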