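import Pool.Agent.Lib.MP_9dcf40_lc.DV.Spec

/-!
# Small circuits, uniform constant (MP_9dcf40_lc): `n h ^ A` gates for all `k` with `k ^ (A k) ≤ h`
-/

namespace SRBP

open Finset

/-- TOPX for one function and all `k` with `k ^ (A k) ≤ h`. -/
def TopXh (A n : ℕ) (h : ℝ) (f : (Fin n → Bool) → Prop) : Prop :=
  ∀ k a : ℕ, 2 ≤ k → 1 ≤ a → (k : ℝ) ^ (A * k) ≤ h → a * (k : ℝ) ^ (A * k) ≤ n →
    ∀ P : NBP (Fin n), SUnamb P → (Fintype.card P.V : ℝ) < Real.exp (n / (a * (k : ℝ) ^ (A * k))) →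
    |∑ y ∈ ShU P (k * n), chi f y| ≤
      (ShU P (k * n)).card / 2 ^ a + 2 ^ n * Real.exp (-(n / (k : ℝ) ^ (A * k)))

/-- The number of points at distance `< d` in the cube. -/
def vol (n d : ℕ) : ℕ := ∑ i ∈ range d, n.choose i

/-- T3'. As `S_Code`, with the exact volume. -/
def S_Codeb : Prop := ∀ (n d : ℕ) (U : Finset (Fin n)), 1 ≤ d → ∃ D : Finset (Fin n → Bool),
  (fun _ => false) ∈ D ∧ (∀ x ∈ D, ∀ y ∈ D, (fun v => xor (x v) (y v)) ∈ D) ∧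
  (∀ x ∈ D, ∀ v, v ∉ U → x v = false) ∧ (∀ x ∈ D, ∀ y ∈ D, x ≠ y → d ≤ (U.filter (fun v => x v ≠ y v)).card) ∧
  2 ^ U.card ≤ D.card * vol n d

/-- T4a'. As `S_CorG`, with the exact volume. -/
def S_CorGb : Prop := ∀ (n d : ℕ) (g : (Fin n → Bool) → ℝ) (U : Finset (Fin n)) (κ : ℝ), (∀ x, |g x| ≤ 1) → 0 ≤ κ → 1 ≤ d →
  (∀ b b' : Fin n → Bool, d ≤ ((univ \ U).filter (fun v => b v ≠ b' v)).card →
    |∑ a : Fin n → Bool, g (glue U a b) * g (glue U a b')| ≤ 2 ^ n * κ) →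
  ∀ A B : Finset (Fin n → Bool), (∀ a ∈ A, ∀ a' ∈ A, ∀ v, v ∉ U → a v = a' v) →
    (∀ b ∈ B, ∀ b' ∈ B, ∀ v ∈ U, b v = b' v) →
    (∑ a ∈ A, ∑ b ∈ B, g (glue U a b)) ^ 2 ≤
      A.card * (2 ^ U.card * (B.card * vol n d + B.card ^ 2 * κ))

/-- T4b'. As `famGood` with `s₀ = n / h` instead of `n^(1 - ε/8)` (`p = ⌈48 h⌉`, `d = ⌊n / (10^4 h^2)⌋`, so
`vol n d ≤ (e n / d)^d ≤ exp (s₀ / 200)`, `W ≤ 2 * 10^4 h^2 + 1`, `2^l ≤ 2 (8 p)^2.41`, `N = 8 p n 2^l`: size `≤ n h^A₀`). -/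
def S_FamGoodh : Prop := ∃ A₀ n₀ : ℕ, ∀ n ≥ n₀, ∀ h : ℝ, 2 ≤ h → h ^ 8 ≤ n → ∃ (N l W : ℕ) (ω : Fam n N l W),
  ((N * (l * (6 * W + 6) + 6) + 6 : ℕ) : ℝ) ≤ n * h ^ A₀ ∧ GoodF n (n / h) (famc ω)

/-- T5'. As `topF`: `16 k^(120 k) ≤ k^(124 k) ≤ h`. -/
def S_TopFh : Prop := ∃ A : ℕ, 1 ≤ A ∧ ∀ n : ℕ, 1 ≤ n → ∀ (h : ℝ) (f : (Fin n → Bool) → Prop), 1 ≤ h →
  GoodF n (n / h) (chi f) → TopXh A n h f

/-- Part (1). -/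
def PartH1 (A n : ℕ) (h : ℝ) (f : (Fin n → Bool) → Prop) : Prop :=
  ∀ k a : ℕ, 2 ≤ k → 1 ≤ a → (k : ℝ) ^ (A * k) ≤ h → a * (k : ℝ) ^ (A * k) ≤ n →
    ∀ P : NBP (Fin n), SUnamb P → (Fintype.card P.V : ℝ) < Real.exp (n / (a * (k : ℝ) ^ (A * k))) →
    |(Nat.card {y : Fin n → Bool // AccIn P (k * n) y ∧ f y} : ℝ) -
        Nat.card {y : Fin n → Bool // AccIn P (k * n) y ∧ ¬ f y}| ≤
      (Nat.card {y : Fin n → Bool // AccIn P (k * n) y} : ℝ) / 2 ^ a +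
        2 ^ n * Real.exp (-(n / (k : ℝ) ^ (A * k)))

/-- Part (2). -/
def PartH2 (A n : ℕ) (h : ℝ) (κ : Type) [Fintype κ] (c : κ → Bool)
    (F : ∀ t : ℕ, (κ ⊕ Fin t × Fin n → Bool) → Prop) : Prop :=
  ∀ k a : ℕ, 2 ≤ k → 1 ≤ a → (k : ℝ) ^ (A * k) ≤ h → a ^ 2 * (k : ℝ) ^ (A * k) * Real.log n ≤ n →
    ∀ t T : ℕ, Fintype.card κ ≤ t * n → T = k * Fintype.card (κ ⊕ Fin t × Fin n) →
    ∀ P : NBP (κ ⊕ Fin t × Fin n), SUnamb P →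
    (Fintype.card P.V : ℝ) < Real.exp (n / (a * (k : ℝ) ^ (A * k))) →
    |(Nat.card {Y : Fin t × Fin n → Bool // AccIn P T (Sum.elim c Y) ∧ F t (Sum.elim c Y)} : ℝ) -
        Nat.card {Y : Fin t × Fin n → Bool // AccIn P T (Sum.elim c Y) ∧ ¬ F t (Sum.elim c Y)}| ≤
      (Nat.card {Y : Fin t × Fin n → Bool // AccIn P T (Sum.elim c Y)} : ℝ) / 2 ^ a +
        2 ^ (t * n) * Real.exp (-(n / (k : ℝ) ^ (A * k)))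

/-- Part (3). -/
def PartH3 (A n : ℕ) (h : ℝ) (κ : Type) [Fintype κ] (F : ∀ t : ℕ, (κ ⊕ Fin t × Fin n → Bool) → Prop) : Prop :=
  ∀ k a : ℕ, 2 ≤ k → 1 ≤ a → (k : ℝ) ^ (A * k) ≤ h → a ^ 2 * (k : ℝ) ^ (A * k) * Real.log n ≤ n →
    ∀ t T : ℕ, Fintype.card κ ≤ t * n → T = k * Fintype.card (κ ⊕ Fin t × Fin n) →
    ∀ (I : Type) [Fintype I] (P : I → Bool → NBP (κ ⊕ Fin t × Fin n)) (w : I → ℝ),
      (∀ i, 0 ≤ w i) → ∑ i, w i = 1 → (∀ i b, SUnamb (P i b)) →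
      (∀ i T z, ¬ (AccIn (P i true) T z ∧ AccIn (P i false) T z)) →
      (∀ i b, (Fintype.card (P i b).V : ℝ) < Real.exp (n / (a * (k : ℝ) ^ (A * k)))) →
      ∃ z : κ ⊕ Fin t × Fin n → Bool, ∀ S : Finset I,
        (∀ i ∈ S, ∃ b : Bool, AccIn (P i b) T z ∧ (b = true ↔ F t z)) → ∑ i ∈ S, w i < 1 / 2 + 1 / 2 ^ a

/-- T7'. As `tEndG`. -/
def S_EndGh : Prop := ∀ A₀ : ℕ, 1 ≤ A₀ → ∃ A N : ℕ, A₀ ≤ A ∧ ∀ n ≥ N, ∀ (κ : Type) [Fintype κ] [Nonempty κ]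
  (val : (κ → Bool) → (Fin n → Bool) → Prop) (c : κ → Bool) (h : ℝ), TopXh A₀ n h (val c) →
  PartH1 A n h (val c) ∧
  PartH2 A n h κ c
    (fun t z => Odd (Nat.card {j : Fin t // val (fun a => z (Sum.inl a)) (fun i => z (Sum.inr (j, i)))})) ∧
  PartH3 A n h κ
    (fun t z => Odd (Nat.card {j : Fin t // val (fun a => z (Sum.inl a)) (fun i => z (Sum.inr (j, i)))}))

end SRBP
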