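import Pool.Agent.Lib.MP_9dcf40_lc.DV.EndG
import Pool.Agent.Lib.MP_9dcf40_lc.DW.Spec

/-!
# The parity of many blocks for any value predicate, `k ^ (A k) ≤ h` (MP_9dcf40_lc)
-/

namespace SRBP

open Finset

namespace EndGh

open RBP.ParAux RBP.ParL AugU ParU EndX EndG

variable {κ : Type} {t n : ℕ}

open scoped Classical in
theorem part1 (A₀ A : ℕ) (hA : A₀ ≤ A) (f : (Fin n → Bool) → Prop) (hh : ℝ) (h : TopXh A₀ n hh f) :
    PartH1 A n hh f := by
  intro k a hk ha hkh hkn P hP hV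
  have hk1 : (1 : ℝ) ≤ k := by
    have : (2 : ℝ) ≤ k := by exact_mod_cast hk
    linarith
  have ha0 : (0 : ℝ) < a := by exact_mod_cast ha
  have hle : (k : ℝ) ^ (A₀ * k) ≤ (k : ℝ) ^ (A * k) :=
    pow_le_pow_right₀ hk1 (Nat.mul_le_mul_right k hA)
  have hpos : (0 : ℝ) < (k : ℝ) ^ (A₀ * k) := by positivity
  have hn0 : (0 : ℝ) ≤ n := Nat.cast_nonneg n
  have hle2 : (a : ℝ) * (k : ℝ) ^ (A₀ * k) ≤ a * (k : ℝ) ^ (A * k) :=
    mul_le_mul_of_nonneg_left hle ha0.le
  have h1 := h k a hk ha (hle.trans hkh) (hle2.trans hkn) P hP (lt_of_lt_of_le hV (Real.exp_le_exp.2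
    (div_le_div_of_nonneg_left hn0 (by positivity) hle2)))
  have h2 : ((ShU P (k * n)).card : ℝ) = Nat.card {y : Fin n → Bool // AccIn P (k * n) y} := by
    rw [Nat.card_eq_fintype_card, Fintype.card_subtype]
    rfl
  have h3 : ∑ y ∈ ShU P (k * n), chi f y =
      (Nat.card {y : Fin n → Bool // AccIn P (k * n) y ∧ f y} : ℝ) -
        Nat.card {y : Fin n → Bool // AccIn P (k * n) y ∧ ¬ f y} := by
    have h4 : ∀ y ∈ ShU P (k * n), chi f y =
        (if f y then 1 else 0) - (if ¬ f y then 1 else 0) := by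
      intro y _
      unfold chi
      by_cases hv : f y
      · rw [if_pos hv, if_pos hv, if_neg (not_not.2 hv)]
        norm_num
      · rw [if_neg hv, if_neg hv, if_pos hv]
        norm_num
    rw [sum_congr rfl h4, sum_sub_distrib, sum_boole, sum_boole]
    congr 2
    · rw [Nat.card_eq_fintype_card, Fintype.card_subtype]
      unfold ShU
      rw [filter_filter]
    · rw [Nat.card_eq_fintype_card, Fintype.card_subtype]
      unfold ShU
      rw [filter_filter]
  rw [h3, h2] at h1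
  refine h1.trans ?_
  have h5 : Real.exp (-(n / (k : ℝ) ^ (A₀ * k))) ≤ Real.exp (-(n / (k : ℝ) ^ (A * k))) := by
    refine Real.exp_le_exp.2 (neg_le_neg ?_)
    exact div_le_div_of_nonneg_left hn0 hpos hle
  have h6 : (2 : ℝ) ^ n * Real.exp (-(n / (k : ℝ) ^ (A₀ * k))) ≤
      2 ^ n * Real.exp (-(n / (k : ℝ) ^ (A * k))) := mul_le_mul_of_nonneg_left h5 (by positivity)
  linarith

open scoped Classical in
theorem part2 [Fintype κ] [Nonempty κ] (hR : S_ResU) (hL : S_LenU) (A₀ : ℕ) (hn : 16 ≤ n)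
    (val : (κ → Bool) → (Fin n → Bool) → Prop) (c : κ → Bool) (hh : ℝ)
    (h : TopXh A₀ n hh (val c)) : PartH2 (12 * A₀ + 12) n hh κ c (OV val) := by
  intro k a hk ha hkh hkn t T ht hT P hP hV
  have hk4 : ((4 * k : ℕ) : ℝ) ^ (A₀ * (4 * k)) ≤ hh := by
    have h1 : 4 * k ≤ k ^ 3 := by
      have h2 : 2 * 2 ≤ k * k := Nat.mul_le_mul hk hk
      calc 4 * k ≤ (k * k) * k := Nat.mul_le_mul_right k h2
        _ = k ^ 3 := by ring
    have h3 : (4 * k) ^ (A₀ * (4 * k)) ≤ k ^ ((12 * A₀ + 12) * k) := by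
      calc (4 * k) ^ (A₀ * (4 * k)) ≤ (k ^ 3) ^ (A₀ * (4 * k)) := Nat.pow_le_pow_left h1 _
        _ = k ^ (12 * A₀ * k) := by
            rw [← pow_mul]
            congr 1
            ring
        _ ≤ k ^ ((12 * A₀ + 12) * k) :=
            Nat.pow_le_pow_right (by omega) (Nat.mul_le_mul_right k (by omega))
    refine le_trans ?_ hkh
    exact_mod_cast h3
  have hn0 : (0 : ℝ) < n := by
    have : (16 : ℝ) ≤ n := by exact_mod_cast hn
    linarith
  have ht1 : 1 ≤ t := by
    rcases Nat.eq_zero_or_pos t with h0 | h0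
    · subst h0
      have h5 : 0 < Fintype.card κ := Fintype.card_pos
      omega
    · exact h0
  have hcard : Fintype.card (κ ⊕ Fin t × Fin n) ≤ 2 * (t * n) := by
    rw [Fintype.card_sum, Fintype.card_prod, Fintype.card_fin, Fintype.card_fin]
    omega
  have hTL : 2 * T ≤ t * (4 * k * n + 1) := by
    rw [hT]
    have h1 := Nat.mul_le_mul_left k hcard
    nlinarith
  have hVne : (1 : ℝ) ≤ Fintype.card P.V := by
    have : 0 < Fintype.card P.V := Fintype.card_pos_iff.2 ⟨P.start⟩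
    exact_mod_cast this
  obtain ⟨n1, n2, n3, -, -⟩ := numbers A₀ n k a hn hk ha hkn _ hVne hV
  have hmain := progsum hR hL P hP c (chi (val c)) (chi_abs (val c)) T (4 * k * n) (a + 1) (1 / 2 ^ (2 * a + 2))
    (Real.exp (-(n / ((4 * k : ℕ) : ℝ) ^ (A₀ * (4 * k))))) (by positivity) (Real.exp_pos _).le ht1 hTL (by
      intro P' hP' hc'
      have h1 := h (4 * k) (2 * a + 2) (by omega) (by omega) hk4 n1 P' hP' (by
        refine lt_of_le_of_lt ?_ n2
        have h2 : (Fintype.card P'.V : ℝ) ≤ ((Fintype.card P.V * ((Fintype.card P.V + 2) *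
            (4 * k * n + 2) ^ (a + 1)) : ℕ) : ℝ) := by exact_mod_cast hc'
        refine h2.trans (le_of_eq ?_)
        push_cast
        ring)
      rw [mul_one_div]
      exact h1)
  -- the counts
  have hX : (Nat.card {Y : Fin t × Fin n → Bool // AccIn P T (Sum.elim c Y)}) =
      (univ.filter (fun Y : Fin t → Fin n → Bool => AccIn P T (inp c Y))).card :=
    card_curry c (fun z => AccIn P T z)
  have hX1 : (Nat.card {Y : Fin t × Fin n → Bool //
      AccIn P T (Sum.elim c Y) ∧ OV val t (Sum.elim c Y)}) =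
      (univ.filter (fun Y : Fin t → Fin n → Bool =>
        AccIn P T (inp c Y) ∧ OV val t (inp c Y))).card :=
    card_curry c (fun z => AccIn P T z ∧ OV val t z)
  have hX2 : (Nat.card {Y : Fin t × Fin n → Bool //
      AccIn P T (Sum.elim c Y) ∧ ¬ OV val t (Sum.elim c Y)}) =
      (univ.filter (fun Y : Fin t → Fin n → Bool =>
        AccIn P T (inp c Y) ∧ ¬ OV val t (inp c Y))).card :=
    card_curry c (fun z => AccIn P T z ∧ ¬ OV val t z)
  have hsum : ∑ Y ∈ univ.filter (fun Y : Fin t → Fin n → Bool => AccIn P T (inp c Y)),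
      sgnG (chi (val c)) Y = (-1) ^ t * (((univ.filter (fun Y : Fin t → Fin n → Bool =>
        AccIn P T (inp c Y) ∧ ¬ OV val t (inp c Y))).card : ℝ) -
        (univ.filter (fun Y : Fin t → Fin n → Bool =>
        AccIn P T (inp c Y) ∧ OV val t (inp c Y))).card) := by
    have h4 : ∀ Y ∈ univ.filter (fun Y : Fin t → Fin n → Bool => AccIn P T (inp c Y)),
        sgnG (chi (val c)) Y = (-1) ^ t * ((if ¬ OV val t (inp c Y) then 1 else 0) -
          (if OV val t (inp c Y) then 1 else 0)) := by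
      intro Y _
      rw [sgnG_chi]
      congr 1
      have h5 := oddval val c Y
      by_cases ho : OV val t (inp c Y)
      · rw [if_pos (h5.1 ho), if_pos ho, if_neg (not_not.2 ho)]
        norm_num
      · rw [if_neg (fun h => ho (h5.2 h)), if_neg ho, if_pos ho]
        norm_num
    rw [sum_congr rfl h4, ← mul_sum, sum_sub_distrib, sum_boole, sum_boole]
    rw [filter_filter, filter_filter]
  rw [hsum, abs_mul, abs_pow, abs_neg, abs_one, one_pow, one_mul, abs_sub_comm] at hmain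
  rw [hX, hX1, hX2]
  refine hmain.trans ?_
  obtain ⟨X, hXX⟩ : ∃ X : ℝ, X = ((univ.filter (fun Y : Fin t → Fin n → Bool =>
    AccIn P T (inp c Y))).card : ℝ) := ⟨_, rfl⟩
  rw [← hXX]
  have hX0 : 0 ≤ X := by
    rw [hXX]
    positivity
  have h6 : (1 : ℝ) / 2 ^ (a + 1) + ((a + 1 : ℕ) : ℝ) * (1 / 2 ^ (2 * a + 2)) ≤ 1 / 2 ^ a := by
    have h7 : ((a + 1 : ℕ) : ℝ) ≤ 2 ^ (a + 1) := by
      exact_mod_cast (Nat.lt_two_pow_self (n := a + 1)).le
    have h8 : ((a + 1 : ℕ) : ℝ) * (1 / 2 ^ (2 * a + 2)) ≤ 2 ^ (a + 1) * (1 / 2 ^ (2 * a + 2)) :=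
      mul_le_mul_of_nonneg_right h7 (by positivity)
    have h9 : (2 : ℝ) ^ (a + 1) * (1 / 2 ^ (2 * a + 2)) = 1 / 2 ^ (a + 1) := by
      rw [mul_one_div, div_eq_div_iff (by positivity) (by positivity)]
      ring
    have h10 : (1 : ℝ) / 2 ^ a = 1 / 2 ^ (a + 1) + 1 / 2 ^ (a + 1) := by
      rw [pow_succ]
      field_simp
      norm_num
    linarith
  have h7 : X * (1 / 2 ^ (a + 1) + ((a + 1 : ℕ) : ℝ) * (1 / 2 ^ (2 * a + 2))) ≤ X / 2 ^ a := by
    have h11 : X / 2 ^ a = X * (1 / 2 ^ a) := by rw [mul_one_div]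
    rw [h11]
    exact mul_le_mul_of_nonneg_left h6 hX0
  have h8 : ((a + 1 : ℕ) : ℝ) * (2 ^ (t * n) * Real.exp (-(n / ((4 * k : ℕ) : ℝ) ^ (A₀ * (4 * k))))) ≤
      2 ^ (t * n) * Real.exp (-(n / (k : ℝ) ^ ((12 * A₀ + 12) * k))) := by
    have h9 : ((a + 1 : ℕ) : ℝ) * (2 ^ (t * n) * Real.exp (-(n / ((4 * k : ℕ) : ℝ) ^ (A₀ * (4 * k))))) =
      2 ^ (t * n) * (((a + 1 : ℕ) : ℝ) * Real.exp (-(n / ((4 * k : ℕ) : ℝ) ^ (A₀ * (4 * k))))) := by ring
    rw [h9]
    exact mul_le_mul_of_nonneg_left n3 (by positivity)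
  linarith

open scoped Classical in
theorem part3 [Fintype κ] (A n : ℕ) (hn : 16 ≤ n) (val : (κ → Bool) → (Fin n → Bool) → Prop) (c : κ → Bool)
    (hh : ℝ) (h : PartH2 (12 * A + 12) n hh κ c (OV val)) : PartH3 (12 * A + 12) n hh κ (OV val) := by
  intro k a hk ha hkh hkn t T ht hT I _ P w hw hw1 hun hdis hsz
  by_contra hno
  push Not at hno
  let R : I → (Fin t × Fin n → Bool) → Prop := fun i Y =>
    ∃ b : Bool, AccIn (P i b) T (Sum.elim c Y) ∧ (b = true ↔ OV val t (Sum.elim c Y))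
  have hn0 : (0 : ℝ) ≤ n := Nat.cast_nonneg n
  -- one program
  have one : ∀ i, (Nat.card {Y : Fin t × Fin n → Bool // R i Y} : ℝ) <
      (1 / 2 + 1 / 2 ^ a) * 2 ^ (t * n) := by
    intro i
    have hb : ∀ b, _ := fun b => h k a hk ha hkh hkn t T ht hT (P i b) (hun i b) (hsz i b)
    have hVne : (1 : ℝ) ≤ Fintype.card (P i true).V := by
      have : 0 < Fintype.card (P i true).V := Fintype.card_pos_iff.2 ⟨(P i true).start⟩
      exact_mod_cast this
    obtain ⟨-, -, -, n4, -⟩ := numbers A n k a hn hk ha hkn _ hVne (hsz i true)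
    have c1 := hb true
    have c2 := hb false
    obtain ⟨E, hE⟩ : ∃ E : ℝ, E = Real.exp (-(n / (k : ℝ) ^ ((12 * A + 12) * k))) := ⟨_, rfl⟩
    rw [← hE] at c1 c2 n4
    have e1 := Fintype.card_subtype (fun Y : Fin t × Fin n → Bool => AccIn (P i true) T (Sum.elim c Y))
    -- all as cards of finsets
    simp only [Nat.card_eq_fintype_card, Fintype.card_subtype] at c1 c2 ⊢
    obtain ⟨X, hX⟩ : ∃ X : Bool → Finset (Fin t × Fin n → Bool),
      X = fun b => univ.filter (fun Y => AccIn (P i b) T (Sum.elim c Y)) := ⟨_, rfl⟩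
    obtain ⟨XO, hXO⟩ : ∃ X : Bool → Finset (Fin t × Fin n → Bool),
      X = fun b => univ.filter (fun Y => AccIn (P i b) T (Sum.elim c Y) ∧
        OV val t (Sum.elim c Y)) := ⟨_, rfl⟩
    obtain ⟨XE, hXE⟩ : ∃ X : Bool → Finset (Fin t × Fin n → Bool),
      X = fun b => univ.filter (fun Y => AccIn (P i b) T (Sum.elim c Y) ∧
        ¬ OV val t (Sum.elim c Y)) := ⟨_, rfl⟩
    have hsplit : ∀ b, ((XO b).card : ℝ) + (XE b).card = (X b).card := by
      intro b
      have h1 : (XO b).card + (XE b).card = (X b).card := by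
        rw [hXO, hXE, hX]
        simp only
        rw [← filter_filter, ← filter_filter]
        exact card_filter_add_card_filter_not _
      exact_mod_cast h1
    have c1' : |((XO true).card : ℝ) - (XE true).card| ≤ (X true).card / 2 ^ a + 2 ^ (t * n) * E := by
      rw [hXO, hXE, hX]
      exact c1
    have c2' : |((XO false).card : ℝ) - (XE false).card| ≤ (X false).card / 2 ^ a + 2 ^ (t * n) * E := by
      rw [hXO, hXE, hX]
      exact c2
    have hsub : univ.filter (fun Y => R i Y) ⊆ XO true ∪ XE false := by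
      intro Y hY
      obtain ⟨b, hb1, hb2⟩ := (mem_filter.1 hY).2
      rw [hXO, hXE, mem_union, mem_filter, mem_filter]
      rcases b with _ | _
      · right
        exact ⟨mem_univ _, hb1, fun h => by simpa using hb2.2 h⟩
      · left
        exact ⟨mem_univ _, hb1, hb2.1 rfl⟩
    have h3 : (((univ.filter (fun Y => R i Y)).card : ℕ) : ℝ) ≤ (XO true).card + (XE false).card := by
      exact_mod_cast (card_le_card hsub).trans (card_union_le _ _)
    have h4 : ((X true).card : ℝ) + (X false).card ≤ 2 ^ (t * n) := by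
      have h5 : Disjoint (X true) (X false) := by
        rw [Finset.disjoint_left, hX]
        intro Y hY hY'
        exact hdis i T _ ⟨(mem_filter.1 hY).2, (mem_filter.1 hY').2⟩
      have h6 : (X true).card + (X false).card ≤ 2 ^ (t * n) := by
        rw [← card_union_of_disjoint h5]
        refine (card_le_univ _).trans ?_
        rw [Fintype.card_fun, Fintype.card_bool, Fintype.card_prod, Fintype.card_fin,
          Fintype.card_fin]
      exact_mod_cast h6
    have s1 := hsplit true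
    have s2 := hsplit false
    have d1 := (abs_le.1 c1').2
    have d2 := (abs_le.1 c2').1
    have hpow : (0 : ℝ) < 2 ^ (t * n) := by positivity
    have h5 : ((X true).card : ℝ) / 2 ^ a + (X false).card / 2 ^ a ≤ 2 ^ (t * n) / 2 ^ a := by
      rw [← add_div]
      exact div_le_div_of_nonneg_right h4 (by positivity)
    have h6 : (2 : ℝ) ^ (t * n) * E < 2 ^ (t * n) * (1 / 2 ^ (a + 1)) :=
      mul_lt_mul_of_pos_left n4 hpow
    have h7 : (2 : ℝ) ^ (t * n) * (1 / 2 ^ (a + 1)) = 2 ^ (t * n) / 2 ^ a / 2 := by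
      rw [pow_succ]
      field_simp
    have h8 : (1 / 2 + 1 / 2 ^ a) * (2 : ℝ) ^ (t * n) = 2 ^ (t * n) / 2 + 2 ^ (t * n) / 2 ^ a := by
      ring
    rw [h8]
    linarith
  -- the average
  have h5 : ∀ Y : Fin t × Fin n → Bool, 1 / 2 + 1 / (2 : ℝ) ^ a ≤ ∑ i, (if R i Y then w i else 0) := by
    intro Y
    obtain ⟨S, hS, hpS⟩ := hno (Sum.elim c Y)
    refine hpS.trans ?_
    calc ∑ i ∈ S, w i = ∑ i ∈ S, (if R i Y then w i else 0) := by
          refine sum_congr rfl (fun i hi => ?_)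
          rw [if_pos (hS i hi)]
      _ ≤ _ := by
          refine sum_le_univ_sum_of_nonneg (fun i => ?_)
          split_ifs
          · exact hw i
          · exact le_rfl
  have h6 : ∑ _Y : Fin t × Fin n → Bool, (1 / 2 + 1 / (2 : ℝ) ^ a) ≤
      ∑ Y : Fin t × Fin n → Bool, ∑ i, (if R i Y then w i else 0) :=
    sum_le_sum (fun Y _ => h5 Y)
  rw [sum_const, nsmul_eq_mul, card_univ, Fintype.card_fun, Fintype.card_bool, Fintype.card_prod,
    Fintype.card_fin, Fintype.card_fin, sum_comm] at h6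
  have h7 : ∀ i, ∑ Y : Fin t × Fin n → Bool, (if R i Y then w i else 0) =
      w i * (Nat.card {Y : Fin t × Fin n → Bool // R i Y} : ℝ) := by
    intro i
    rw [← sum_filter, sum_const, nsmul_eq_mul, mul_comm, Nat.card_eq_fintype_card,
      Fintype.card_subtype]
  simp only [h7] at h6
  have h8 : ∃ i, 0 < w i := by
    by_contra hno
    push Not at hno
    have : ∑ i, w i ≤ 0 := sum_nonpos (fun i _ => hno i)
    linarith
  obtain ⟨i₀, hi₀⟩ := h8
  have h9 : ∑ i, w i * (Nat.card {Y : Fin t × Fin n → Bool // R i Y} : ℝ) <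
      ∑ i, w i * ((1 / 2 + 1 / 2 ^ a) * 2 ^ (t * n)) := by
    refine sum_lt_sum (fun i _ => ?_) ⟨i₀, mem_univ _, ?_⟩
    · exact mul_le_mul_of_nonneg_left (one i).le (hw i)
    · exact mul_lt_mul_of_pos_left (one i₀) hi₀
  rw [← sum_mul, hw1, one_mul] at h9
  push_cast at h6
  linarith

end EndGh

/-- ENDGH. -/
theorem tEndGh (hR : S_ResU) (hL : S_LenU) : S_EndGh := by
  intro A₀ hA₀
  refine ⟨12 * A₀ + 12, 16, by omega, ?_⟩
  intro n hn κ _ _ val c hh h
  have h2 := EndGh.part2 hR hL A₀ hn val c hh h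
  exact ⟨EndGh.part1 A₀ (12 * A₀ + 12) (by omega) (val c) hh h, h2, EndGh.part3 A₀ n hn val c hh h2⟩

end SRBP
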