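import Pool.Agent.Lib.MP_9dcf40_lc.DW.Spec

/-! # Small circuits: the volume of a ball in the cube -/

namespace SRBP

open Finset

/-- `vol n d ≤ (e n / d) ^ d`. -/
theorem vol_le (n d : ℕ) (h1 : 1 ≤ d) (h2 : d ≤ n) :
    (vol n d : ℝ) ≤ (Real.exp 1 * n / d) ^ d := by
  have hd : (0 : ℝ) < d := by exact_mod_cast h1
  have hn : (0 : ℝ) < n := lt_of_lt_of_le hd (by exact_mod_cast h2)
  set q : ℝ := d / n with hq
  have hq0 : 0 < q := div_pos hd hn
  have hq1 : q ≤ 1 := (div_le_one hn).2 (by exact_mod_cast h2)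
  -- each term
  have h3 : (vol n d : ℝ) * q ^ d ≤ (q + 1) ^ n := by
    rw [add_pow, vol]
    push_cast
    rw [sum_mul]
    refine le_trans (sum_le_sum (g := fun i => q ^ i * 1 ^ (n - i) * (n.choose i : ℝ)) fun i hi => ?_) ?_
    · rw [one_pow, mul_one, mul_comm]
      exact mul_le_mul_of_nonneg_right (pow_le_pow_of_le_one hq0.le hq1 (mem_range.1 hi).le)
        (Nat.cast_nonneg _)
    · refine sum_le_sum_of_subset_of_nonneg (fun i hi => mem_range.2 ?_) fun i _ _ => by positivity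
      have := mem_range.1 hi
      omega
  have h4 : (q + 1) ^ n ≤ Real.exp d := by
    have h5 : (q + 1) ^ n ≤ Real.exp q ^ n :=
      pow_le_pow_left₀ (by positivity) (Real.add_one_le_exp q) n
    rw [← Real.exp_nat_mul] at h5
    have h6 : (n : ℝ) * q = d := by
      rw [hq]
      field_simp
    rwa [h6] at h5
  have h5 : (vol n d : ℝ) ≤ Real.exp d / q ^ d := by
    rw [le_div_iff₀ (pow_pos hq0 d)]
    exact h3.trans h4
  refine h5.trans (le_of_eq ?_)
  rw [hq, div_pow, div_pow, mul_pow, ← Real.exp_nat_mul, mul_one, div_div_eq_mul_div]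

/-- The form used: `vol n d ≤ exp (d (1 + log (n / d)))`. -/
theorem vol_le_exp (n d : ℕ) (h1 : 1 ≤ d) (h2 : d ≤ n) :
    (vol n d : ℝ) ≤ Real.exp (d * (1 + Real.log (n / d))) := by
  refine (vol_le n d h1 h2).trans (le_of_eq ?_)
  have hd : (0 : ℝ) < d := by exact_mod_cast h1
  have hn : (0 : ℝ) < n := lt_of_lt_of_le hd (by exact_mod_cast h2)
  rw [Real.exp_nat_mul, Real.exp_add, Real.exp_log (div_pos hn hd), mul_div_assoc]

end SRBP
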