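import Pool.Agent.Lib.MP_9dcf40_lc.DV.Good
import Pool.Agent.Lib.MP_9dcf40_lc.DW.Spec
import Pool.Agent.Lib.MP_9dcf40_lc.DW.Vol

/-!
# Small circuits, uniform constant (MP_9dcf40_lc): good functions with small parameters
-/

namespace SRBP

open Finset

namespace FamH

open FamG (GoodW avg famc_sq root)

/-- The parameters. -/
theorem paramsh {n : ℕ} (hn : 1 ≤ n) {h s₀ : ℝ} (hh : 2 ≤ h) (hh8 : h ^ 8 ≤ n)
    (hs : s₀ = n / h) (hbig : 10000 ≤ (n : ℝ) ^ (1 / 8 : ℝ)) :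
    ∃ d W p l : ℕ, 1 ≤ d ∧ 4 ≤ p ∧ n ≤ W * d ∧ 8 * (p : ℝ) * (3 / 4) ^ l ≤ 1 ∧
      (vol n d : ℝ) ≤ Real.exp (s₀ / 200) ∧ 48 * (n : ℝ) ≤ p * s₀ ∧
      2 * (p : ℝ) ≤ Real.exp (4 / 25 * s₀) ∧ 1000 ≤ s₀ ∧
      (((8 * p * n * 2 ^ l) * (l * (6 * W + 6) + 6) + 6 : ℕ) : ℝ) ≤ n * h ^ 74 := by
  obtain ⟨x, hx⟩ : ∃ x : ℝ, x = (n : ℝ) ^ (1 / 8 : ℝ) := ⟨_, rfl⟩
  rw [← hx] at hbig
  have hn1 : (1 : ℝ) ≤ n := by exact_mod_cast hn
  have hn0 : (0 : ℝ) < n := by linarith
  have hx0 : 0 < x := by linarith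
  have hx1 : 1 ≤ x := by linarith
  have hh1 : 1 ≤ h := by linarith
  have h0 : 0 < h := by linarith
  -- `h ≤ x`
  have hx8 : x ^ 8 = n := by
    rw [hx, ← Real.rpow_natCast, ← Real.rpow_mul hn0.le]
    norm_num
  have hhx : h ≤ x := by
    by_contra hc
    rw [not_le] at hc
    have h1 : x ^ 8 < h ^ 8 := pow_lt_pow_left₀ hc hx0.le (by norm_num)
    rw [hx8] at h1
    linarith
  have hsx : x ^ 7 ≤ s₀ := by
    rw [hs, le_div_iff₀ h0, ← hx8]
    calc x ^ 7 * h ≤ x ^ 7 * x := mul_le_mul_of_nonneg_left hhx (by positivity)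
      _ = x ^ 8 := by ring
  have hhs : h * s₀ = n := by
    rw [hs]
    field_simp
  -- `s₀` is large
  have hx2 : x ^ 2 ≤ s₀ := (pow_le_pow_right₀ hx1 (by norm_num)).trans hsx
  have hxs3 : 1000 * h ≤ s₀ := by
    calc 1000 * h ≤ 1000 * x := by linarith
      _ ≤ x * x := mul_le_mul_of_nonneg_right (by linarith) hx0.le
      _ = x ^ 2 := by ring
      _ ≤ s₀ := hx2
  have hs0 : 0 < s₀ := by linarith
  obtain ⟨p, hp⟩ : ∃ p : ℕ, p = ⌈48 * h⌉₊ := ⟨_, rfl⟩
  have hp1 : 48 * h ≤ p := by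
    rw [hp]
    exact Nat.le_ceil _
  have hp2 : (p : ℝ) ≤ 49 * h := by
    have h1 : ((⌈48 * h⌉₊ : ℕ) : ℝ) < 48 * h + 1 := Nat.ceil_lt_add_one (by positivity)
    rw [hp]
    linarith
  have hp4 : 4 ≤ p := by
    have : (4 : ℝ) ≤ p := by linarith
    exact_mod_cast this
  obtain ⟨j, hj⟩ : ∃ j : ℕ, j = Nat.size (8 * p) := ⟨_, rfl⟩
  have hj1 : 8 * p < 2 ^ j := by
    rw [hj]
    exact Nat.lt_size_self _
  have hj0 : 1 ≤ j := by
    by_contra h
    have : j = 0 := by omega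
    rw [this] at hj1
    omega
  have hj2 : 2 ^ j ≤ 16 * p := by
    have h1 : j - 1 < Nat.size (8 * p) := by omega
    have h2 := Nat.lt_size.1 h1
    have h3 : 2 ^ j = 2 * 2 ^ (j - 1) := by
      rw [← pow_succ']
      congr 1
      omega
    omega
  have hj1R : 8 * (p : ℝ) ≤ 2 ^ j := by
    have : ((8 * p : ℕ) : ℝ) ≤ ((2 ^ j : ℕ) : ℝ) := by exact_mod_cast hj1.le
    push_cast at this
    exact this
  have hj2R : (2 : ℝ) ^ j ≤ 16 * p := by exact_mod_cast hj2
  have hjp : (j : ℝ) ≤ 16 * p := by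
    have h1 : j ≤ 2 ^ j := Nat.lt_two_pow_self.le
    have h2 : j ≤ 16 * p := h1.trans hj2
    exact_mod_cast h2
  obtain ⟨l, hl⟩ : ∃ l : ℕ, l = 3 * j := ⟨_, rfl⟩
  have hl1 : (l : ℝ) ≤ 2352 * h := by
    rw [hl]
    push_cast
    linarith
  have hl2 : (2 : ℝ) ^ l ≤ (784 * h) ^ 3 := by
    rw [hl, mul_comm 3 j, pow_mul]
    exact pow_le_pow_left₀ (by positivity) (by linarith) 3
  have hl3 : 8 * (p : ℝ) * (3 / 4) ^ l ≤ 1 := by
    rw [hl, pow_mul]
    have h1 : ((3 / 4 : ℝ) ^ 3) ^ j ≤ (1 / 2) ^ j :=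
      pow_le_pow_left₀ (by positivity) (by norm_num) j
    have h2 : (2 : ℝ) ^ j * (1 / 2) ^ j = 1 := by
      rw [← mul_pow]
      norm_num
    calc 8 * (p : ℝ) * ((3 / 4 : ℝ) ^ 3) ^ j ≤ 2 ^ j * (1 / 2) ^ j :=
          mul_le_mul hj1R h1 (by positivity) (by positivity)
      _ = 1 := h2
  -- `d`
  obtain ⟨d, hd⟩ : ∃ d : ℕ, d = ⌊(n : ℝ) / (10 ^ 4 * h ^ 2)⌋₊ := ⟨_, rfl⟩
  have hd1 : (d : ℝ) ≤ n / (10 ^ 4 * h ^ 2) := by
    rw [hd]
    exact Nat.floor_le (by positivity)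
  have h200 : 2 ≤ (n : ℝ) / (10 ^ 4 * h ^ 2) := by
    rw [le_div_iff₀ (by positivity), ← hhs]
    calc 2 * (10 ^ 4 * h ^ 2) = h * (2 * 10 ^ 4 * h) := by ring
      _ ≤ h * (2 * 10 ^ 4 * x) := by gcongr
      _ ≤ h * x ^ 3 := by
          refine mul_le_mul_of_nonneg_left ?_ h0.le
          calc 2 * 10 ^ 4 * x ≤ (10 ^ 4 * 10 ^ 4) * x := by
                refine mul_le_mul_of_nonneg_right (by norm_num) hx0.le
            _ ≤ (x * x) * x := by
                refine mul_le_mul_of_nonneg_right ?_ hx0.le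
                exact mul_le_mul (by linarith) (by linarith) (by norm_num) hx0.le
            _ = x ^ 3 := by ring
      _ ≤ h * s₀ := mul_le_mul_of_nonneg_left
          ((pow_le_pow_right₀ hx1 (by norm_num)).trans hsx) h0.le
  have hd2 : (n : ℝ) / (2 * 10 ^ 4 * h ^ 2) ≤ d := by
    have h1 : (n : ℝ) / (10 ^ 4 * h ^ 2) < d + 1 := by
      rw [hd]
      exact Nat.lt_floor_add_one _
    have h2 : (n : ℝ) / (10 ^ 4 * h ^ 2) = n / (2 * 10 ^ 4 * h ^ 2) + n / (2 * 10 ^ 4 * h ^ 2) := by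
      field_simp
      norm_num
    linarith
  have hd3 : 1 ≤ d := by
    rw [hd]
    exact Nat.le_floor (by push_cast; linarith)
  have hd0 : (0 : ℝ) < d := by exact_mod_cast hd3
  have hnd : (n : ℝ) / d ≤ 2 * 10 ^ 4 * h ^ 2 := by
    rw [div_le_iff₀ hd0]
    calc (n : ℝ) = 2 * 10 ^ 4 * h ^ 2 * (n / (2 * 10 ^ 4 * h ^ 2)) := by
          field_simp
      _ ≤ 2 * 10 ^ 4 * h ^ 2 * d := mul_le_mul_of_nonneg_left hd2 (by positivity)
  have hdn : d ≤ n := by
    have h1 : (d : ℝ) ≤ n := by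
      refine hd1.trans (div_le_self hn0.le ?_)
      have : (1 : ℝ) ≤ h ^ 2 := one_le_pow₀ hh1
      linarith
    exact_mod_cast h1
  have hvol : (vol n d : ℝ) ≤ Real.exp (s₀ / 200) := by
    have h1 := vol_le n d hd3 hdn
    refine h1.trans ?_
    have h2 : Real.exp 1 * n / d ≤ Real.exp (12 * h) := by
      have h3 : (2 : ℝ) * 10 ^ 4 ≤ Real.exp 10 := by
        have h4 : (2.7 : ℝ) ≤ Real.exp 1 := by
          have := Real.exp_one_gt_d9
          linarith
        calc (2 : ℝ) * 10 ^ 4 ≤ 2.7 ^ 10 := by norm_num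
          _ ≤ Real.exp 1 ^ 10 := pow_le_pow_left₀ (by norm_num) h4 10
          _ = Real.exp 10 := by
            rw [← Real.exp_nat_mul]
            norm_num
      have h5 : h ≤ Real.exp h := by
        have := Real.add_one_le_exp h
        linarith
      calc Real.exp 1 * n / d = Real.exp 1 * (n / d) := by rw [mul_div_assoc]
        _ ≤ Real.exp 1 * (2 * 10 ^ 4 * h ^ 2) :=
            mul_le_mul_of_nonneg_left hnd (Real.exp_pos _).le
        _ ≤ Real.exp 1 * (Real.exp 10 * Real.exp h ^ 2) := by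
            refine mul_le_mul_of_nonneg_left ?_ (Real.exp_pos _).le
            exact mul_le_mul h3 (pow_le_pow_left₀ h0.le h5 2) (by positivity) (Real.exp_pos _).le
        _ = Real.exp (1 + (10 + 2 * h)) := by
            rw [← Real.exp_nat_mul, ← Real.exp_add, ← Real.exp_add]
            norm_num
        _ ≤ Real.exp (12 * h) := Real.exp_le_exp.2 (by linarith)
    calc (Real.exp 1 * n / d) ^ d ≤ Real.exp (12 * h) ^ d :=
          pow_le_pow_left₀ (by positivity) h2 d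
      _ = Real.exp (d * (12 * h)) := by rw [← Real.exp_nat_mul]
      _ ≤ Real.exp (s₀ / 200) := by
          refine Real.exp_le_exp.2 ?_
          calc (d : ℝ) * (12 * h) ≤ n / (10 ^ 4 * h ^ 2) * (12 * h) :=
                mul_le_mul_of_nonneg_right hd1 (by positivity)
            _ = 12 / 10 ^ 4 * s₀ := by
                rw [← hhs]
                field_simp
            _ ≤ s₀ / 200 := by linarith
  obtain ⟨W, hW⟩ : ∃ W : ℕ, W = ⌈(n : ℝ) / d⌉₊ := ⟨_, rfl⟩
  have hW1 : (n : ℝ) / d ≤ W := by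
    rw [hW]
    exact Nat.le_ceil _
  have hh2 : (1 : ℝ) ≤ h ^ 2 := one_le_pow₀ hh1
  have hh3 : (1 : ℝ) ≤ h ^ 3 := one_le_pow₀ hh1
  have hW2 : (W : ℝ) ≤ 20001 * h ^ 2 := by
    have h1 : (W : ℝ) < n / d + 1 := by
      rw [hW]
      exact Nat.ceil_lt_add_one (by positivity)
    linarith
  refine ⟨d, W, p, l, hd3, hp4, ?_, hl3, hvol, ?_, ?_, ?_, ?_⟩
  · have h1 : (n : ℝ) ≤ W * d := by
      rwa [div_le_iff₀ hd0] at hW1
    exact_mod_cast h1
  · calc 48 * (n : ℝ) = 48 * h * s₀ := by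
          rw [← hhs]
          ring
      _ ≤ p * s₀ := mul_le_mul_of_nonneg_right hp1 hs0.le
  · have h1 : 4 / 25 * s₀ ≤ Real.exp (4 / 25 * s₀) := by
      have := Real.add_one_le_exp (4 / 25 * s₀)
      linarith
    refine le_trans ?_ h1
    linarith
  · linarith
  · push_cast
    have hN : 8 * (p : ℝ) * n * 2 ^ l ≤ 2 * 10 ^ 11 * n * h ^ 4 := by
      calc 8 * (p : ℝ) * n * 2 ^ l ≤ 8 * (49 * h) * n * (784 * h) ^ 3 := by gcongr
        _ = (8 * 49 * 784 ^ 3) * (n * h ^ 4) := by ring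
        _ ≤ (2 * 10 ^ 11) * (n * h ^ 4) := by
            refine mul_le_mul_of_nonneg_right (by norm_num) (by positivity)
        _ = _ := by ring
    have hR : (l : ℝ) * (6 * W + 6) + 6 ≤ 3 * 10 ^ 8 * h ^ 3 := by
      calc (l : ℝ) * (6 * W + 6) + 6 ≤ (2352 * h) * (6 * (20001 * h ^ 2) + 6 * h ^ 2) +
            6 * h ^ 3 := by
            gcongr
            · linarith
            · linarith
        _ = (2352 * 120012 + 6) * h ^ 3 := by ring
        _ ≤ _ := by
            refine mul_le_mul_of_nonneg_right (by norm_num) (by positivity)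
    have h6 : 1 ≤ n * h ^ 7 := one_le_mul_of_one_le_of_one_le hn1 (one_le_pow₀ hh1)
    have h67 : (10 : ℝ) ^ 20 ≤ h ^ 67 := by
      calc (10 : ℝ) ^ 20 ≤ 2 ^ 67 := by norm_num
        _ ≤ _ := pow_le_pow_left₀ (by norm_num) hh 67
    calc 8 * (p : ℝ) * n * 2 ^ l * (l * (6 * W + 6) + 6) + 6 ≤
          (2 * 10 ^ 11 * n * h ^ 4) * (3 * 10 ^ 8 * h ^ 3) + 6 * (n * h ^ 7) := by
          gcongr
          linarith
      _ = (2 * 10 ^ 11 * (3 * 10 ^ 8) + 6) * (n * h ^ 7) := by ring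
      _ ≤ (10 ^ 20) * (n * h ^ 7) := by
          refine mul_le_mul_of_nonneg_right (by norm_num) (by positivity)
      _ ≤ h ^ 67 * (n * h ^ 7) := mul_le_mul_of_nonneg_right h67 (by positivity)
      _ = n * h ^ 74 := by ring

open scoped Classical in
/-- One set `K`: few parameters are bad. -/
theorem one (hM : S_Mom) {n N l W d p s : ℕ} {s₀ : ℝ} (U : Finset (Fin n)) (hUs : U.card = s)
    (hs : s₀ ≤ s) (K : Finset (Fin n → Bool)) (b b' : Fin n → Bool) (hn : 1 ≤ n) (hp : 4 ≤ p)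
    (hWd : n ≤ W * d) (hd : 1 ≤ d) (hl : 8 * (p : ℝ) * (3 / 4) ^ l ≤ 1)
    {vl : ℝ} (hv : vl ≤ Real.exp (s₀ / 200)) (hps : 48 * (n : ℝ) ≤ p * s₀)
    (hpe : 2 * (p : ℝ) ≤ Real.exp (4 / 25 * s₀)) (hN : N = 8 * p * n * 2 ^ l)
    (hK : ∀ a ∈ K, ∀ a' ∈ K, a ≠ a' → d ≤ (U.filter (fun v => a v ≠ a' v)).card)
    (hb : d ≤ ((univ \ U).filter (fun v => b v ≠ b' v)).card)
    (hv0 : 0 ≤ vl) (hKc : (2 : ℝ) ^ s ≤ K.card * vl) :
    (((univ : Finset (Fam n N l W)).filter (fun ω => K.card * Real.exp (-((s : ℝ) / 100)) <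
      |∑ a ∈ K, famc ω (glue U a b) * famc ω (glue U a b')|)).card : ℝ) ≤
      Fintype.card (Fam n N l W) * (2 * Real.exp (-(24 * n))) := by
  have hmom := hM n N l W d p U K b b' hn (by omega) hWd hd hl hK hb
  have hn0 : (0 : ℝ) < n := by exact_mod_cast hn
  have hsn : (s : ℝ) ≤ n := by
    have h1 : s ≤ n := by
      rw [← hUs]
      exact (card_le_univ U).trans (le_of_eq (Fintype.card_fin n))
    exact_mod_cast h1
  have hpR : (4 : ℝ) ≤ p := by exact_mod_cast hp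
  have hs0 : (0 : ℝ) ≤ s := Nat.cast_nonneg s
  have hKp : (0 : ℝ) < K.card := by
    by_contra h
    rw [not_lt] at h
    have h1 : (K.card : ℝ) * vl ≤ 0 := mul_nonpos_of_nonpos_of_nonneg h hv0
    have h2 : (0 : ℝ) < 2 ^ s := by positivity
    linarith
  obtain ⟨T, hT⟩ : ∃ T : ℝ, T = K.card * Real.exp (-((s : ℝ) / 100)) := ⟨_, rfl⟩
  rw [← hT]
  have hT0 : 0 < T := by
    rw [hT]
    have := Real.exp_pos (-((s : ℝ) / 100))
    positivity
  obtain ⟨B, hB⟩ : ∃ B : Finset (Fam n N l W), B = (univ : Finset (Fam n N l W)).filter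
    (fun ω => T < |∑ a ∈ K, famc ω (glue U a b) * famc ω (glue U a b')|) := ⟨_, rfl⟩
  rw [← hB]
  -- Markov
  have hmk : (B.card : ℝ) * T ^ (2 * p) ≤ Fintype.card (Fam n N l W) *
      ((2 * p * K.card : ℝ) ^ p + (K.card : ℝ) ^ (2 * p) * Real.exp (-(N / 2 ^ l : ℝ))) := by
    refine le_trans ?_ hmom
    calc (B.card : ℝ) * T ^ (2 * p) = ∑ ω ∈ B, T ^ (2 * p) := by
          rw [sum_const, nsmul_eq_mul]
      _ ≤ ∑ ω ∈ B, (∑ a ∈ K, famc ω (glue U a b) * famc ω (glue U a b')) ^ (2 * p) := by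
          refine sum_le_sum (fun ω hω => ?_)
          rw [hB] at hω
          have h1 := (mem_filter.1 hω).2
          have h2 : T ^ (2 * p) ≤ |∑ a ∈ K, famc ω (glue U a b) * famc ω (glue U a b')| ^ (2 * p) :=
            pow_le_pow_left₀ hT0.le h1.le _
          rwa [pow_mul |_|, sq_abs, ← pow_mul] at h2
      _ ≤ _ := sum_le_sum_of_subset_of_nonneg (subset_univ B) (fun ω _ _ => by
          rw [pow_mul]
          positivity)
  -- the first term
  have hlog : Real.exp (137 / 200 * s) ≤ K.card := by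
    have h1 : vl ≤ Real.exp (s / 200) := hv.trans (Real.exp_le_exp.2 (by linarith))
    have h2 : Real.exp (69 / 100 * s) ≤ 2 ^ s := by
      have h3 : (2 : ℝ) ^ s = Real.exp (s * Real.log 2) := by
        rw [Real.exp_nat_mul, Real.exp_log (by norm_num)]
      rw [h3]
      refine Real.exp_le_exp.2 ?_
      have := Real.log_two_gt_d9
      nlinarith
    have h3 : Real.exp (69 / 100 * s) ≤ K.card * Real.exp (s / 200) :=
      (h2.trans hKc).trans (mul_le_mul_of_nonneg_left h1 hKp.le)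
    have h4 : Real.exp (69 / 100 * s) = Real.exp (137 / 200 * s) * Real.exp (s / 200) := by
      rw [← Real.exp_add]
      congr 1
      ring
    rw [h4] at h3
    exact le_of_mul_le_mul_right h3 (Real.exp_pos _)
  have ht1 : (2 * p * K.card : ℝ) ^ p ≤ T ^ (2 * p) * Real.exp (-(24 * n)) := by
    have h1 : (2 * p * K.card : ℝ) ≤ T ^ 2 * Real.exp (-(s / 2)) := by
      have h2 : 2 * (p : ℝ) ≤ K.card * (Real.exp (-((s : ℝ) / 100)) ^ 2 * Real.exp (-(s / 2))) := by
        have h3 : Real.exp (-((s : ℝ) / 100)) ^ 2 * Real.exp (-(s / 2)) =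
            Real.exp (-(13 / 25 * s)) := by
          rw [← Real.exp_nat_mul, ← Real.exp_add]
          congr 1
          push_cast
          ring
        rw [h3]
        calc 2 * (p : ℝ) ≤ Real.exp (4 / 25 * s₀) := hpe
          _ ≤ Real.exp (137 / 200 * s + -(13 / 25 * s)) := Real.exp_le_exp.2 (by linarith)
          _ = Real.exp (137 / 200 * s) * Real.exp (-(13 / 25 * s)) := Real.exp_add _ _
          _ ≤ _ := mul_le_mul_of_nonneg_right hlog (Real.exp_pos _).le
      calc (2 * p * K.card : ℝ) ≤ (K.card * (Real.exp (-((s : ℝ) / 100)) ^ 2 *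
            Real.exp (-(s / 2)))) * K.card := mul_le_mul_of_nonneg_right h2 hKp.le
        _ = T ^ 2 * Real.exp (-(s / 2)) := by
            rw [hT]
            ring
    calc (2 * p * K.card : ℝ) ^ p ≤ (T ^ 2 * Real.exp (-(s / 2))) ^ p :=
          pow_le_pow_left₀ (by positivity) h1 p
      _ = T ^ (2 * p) * Real.exp (p * -(s / 2)) := by
          rw [mul_pow, ← pow_mul, Real.exp_nat_mul]
      _ ≤ T ^ (2 * p) * Real.exp (-(24 * n)) := by
          refine mul_le_mul_of_nonneg_left (Real.exp_le_exp.2 ?_) (by positivity)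
          have h3 : (p : ℝ) * s₀ ≤ p * s := mul_le_mul_of_nonneg_left hs (by positivity)
          linarith
  -- the second term
  have ht2 : (K.card : ℝ) ^ (2 * p) * Real.exp (-(N / 2 ^ l : ℝ)) ≤
      T ^ (2 * p) * Real.exp (-(24 * n)) := by
    have h1 : (N / 2 ^ l : ℝ) = 8 * p * n := by
      rw [hN]
      push_cast
      field_simp
    have h4 : T ^ (2 * p) * Real.exp (-(24 * n)) =
        (K.card : ℝ) ^ (2 * p) * Real.exp (((2 * p : ℕ) : ℝ) * -((s : ℝ) / 100) + -(24 * n)) := by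
      rw [hT, mul_pow, ← Real.exp_nat_mul, mul_assoc, ← Real.exp_add]
    rw [h1, h4]
    refine mul_le_mul_of_nonneg_left (Real.exp_le_exp.2 ?_) (by positivity)
    push_cast
    have h2 : (p : ℝ) * s ≤ p * n := mul_le_mul_of_nonneg_left hsn (by positivity)
    have h3 : (4 : ℝ) * n ≤ p * n := mul_le_mul_of_nonneg_right hpR hn0.le
    nlinarith
  have hfin : (B.card : ℝ) * T ^ (2 * p) ≤
      (Fintype.card (Fam n N l W) * (2 * Real.exp (-(24 * n)))) * T ^ (2 * p) := by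
    calc (B.card : ℝ) * T ^ (2 * p) ≤ Fintype.card (Fam n N l W) *
          ((2 * p * K.card : ℝ) ^ p + (K.card : ℝ) ^ (2 * p) * Real.exp (-(N / 2 ^ l : ℝ))) := hmk
      _ ≤ Fintype.card (Fam n N l W) * (T ^ (2 * p) * Real.exp (-(24 * n)) +
          T ^ (2 * p) * Real.exp (-(24 * n))) :=
          mul_le_mul_of_nonneg_left (add_le_add ht1 ht2) (Nat.cast_nonneg _)
      _ = _ := by ring
  exact le_of_mul_le_mul_right hfin (by positivity)

open scoped Classical in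
theorem exists_good (hM : S_Mom) {n N l W d p : ℕ} {s₀ : ℝ} (hn : 1 ≤ n) (hp : 4 ≤ p)
    (hWd : n ≤ W * d) (hd : 1 ≤ d) (hl : 8 * (p : ℝ) * (3 / 4) ^ l ≤ 1)
    {vl : ℝ} (hv : vl ≤ Real.exp (s₀ / 200)) (hv0 : 0 ≤ vl) (hps : 48 * (n : ℝ) ≤ p * s₀)
    (hpe : 2 * (p : ℝ) ≤ Real.exp (4 / 25 * s₀)) (hN : N = 8 * p * n * 2 ^ l)
    (D : Finset (Fin n) → Finset (Fin n → Bool))
    (hD : ∀ U, ∀ x ∈ D U, ∀ y ∈ D U, x ≠ y → d ≤ (U.filter (fun v => x v ≠ y v)).card)
    (hDc : ∀ U : Finset (Fin n), (2 : ℝ) ^ U.card ≤ (D U).card * vl) :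
    ∃ ω : Fam n N l W, GoodW ω d s₀ D := by
  by_contra hcon
  push Not at hcon
  obtain ⟨K, hK⟩ : ∃ K : Finset (Fin n) × (Fin n → Bool) → Finset (Fin n → Bool),
      K = fun q => (D q.1).image (fun x => fun v => xor (q.2 v) (x v)) := ⟨_, rfl⟩
  have hinj : ∀ e : Fin n → Bool, Function.Injective
      (fun x : Fin n → Bool => (fun v => xor (e v) (x v))) := by
    intro e x y h
    funext v
    have h1 := congrFun h v
    simpa using h1
  have hKc : ∀ q, (K q).card = (D q.1).card := by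
    intro q
    rw [hK]
    exact card_image_of_injective _ (hinj q.2)
  have hKd : ∀ q, ∀ a ∈ K q, ∀ a' ∈ K q, a ≠ a' →
      d ≤ (q.1.filter (fun v => a v ≠ a' v)).card := by
    intro q a ha a' ha' hne
    rw [hK] at ha ha'
    obtain ⟨x, hx, rfl⟩ := mem_image.1 ha
    obtain ⟨y, hy, rfl⟩ := mem_image.1 ha'
    have h1 : x ≠ y := fun h => hne (by rw [h])
    refine (hD q.1 x hx y hy h1).trans (le_of_eq ?_)
    congr 1
    refine filter_congr (fun v _ => ?_)
    simp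
  obtain ⟨bad, hbad⟩ : ∃ bad : (Finset (Fin n) × (Fin n → Bool)) × (Fin n → Bool) × (Fin n → Bool) →
      Finset (Fam n N l W), bad = fun q =>
      if s₀ ≤ q.1.1.card ∧ d ≤ ((univ \ q.1.1).filter (fun v => q.2.1 v ≠ q.2.2 v)).card then
        (univ : Finset (Fam n N l W)).filter (fun ω => (K q.1).card *
          Real.exp (-((q.1.1.card : ℝ) / 100)) <
          |∑ a ∈ K q.1, famc ω (glue q.1.1 a q.2.1) * famc ω (glue q.1.1 a q.2.2)|)
      else ∅ := ⟨_, rfl⟩
  have hbc : ∀ q, ((bad q).card : ℝ) ≤ Fintype.card (Fam n N l W) * (2 * Real.exp (-(24 * n))) := by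
    intro q
    rw [hbad]
    simp only
    split_ifs with hq
    · refine one hM q.1.1 rfl hq.1 (K q.1) q.2.1 q.2.2 hn hp hWd hd hl hv hps hpe hN
        (hKd q.1) hq.2 hv0 ?_
      rw [hKc]
      exact hDc q.1.1
    · rw [card_empty, Nat.cast_zero]
      have := Real.exp_pos (-(24 * (n : ℝ)))
      positivity
  have hcov : (univ : Finset (Fam n N l W)) ⊆ univ.biUnion bad := by
    intro ω _
    have h1 := hcon ω
    unfold GoodW at h1
    push Not at h1
    obtain ⟨U, b, b', e, h2, h3, h4⟩ := h1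
    refine mem_biUnion.2 ⟨((U, e), b, b'), mem_univ _, ?_⟩
    rw [hbad]
    simp only
    rw [if_pos ⟨h2, h3⟩, mem_filter]
    refine ⟨mem_univ _, ?_⟩
    rw [hKc, hK]
    simp only
    rw [sum_image (fun x _ y _ h => hinj e h)]
    exact h4
  have hcard : (Fintype.card (Fam n N l W) : ℝ) ≤
      16 ^ n * (Fintype.card (Fam n N l W) * (2 * Real.exp (-(24 * n)))) := by
    have h1 : Fintype.card (Fam n N l W) ≤ ∑ q, (bad q).card := by
      rw [← card_univ]
      exact (card_le_card hcov).trans card_biUnion_le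
    have h2 : (Fintype.card (Fam n N l W) : ℝ) ≤ ∑ q, ((bad q).card : ℝ) := by exact_mod_cast h1
    refine h2.trans ((sum_le_sum (fun q _ => hbc q)).trans (le_of_eq ?_))
    rw [sum_const, nsmul_eq_mul, card_univ]
    congr 1
    rw [Fintype.card_prod, Fintype.card_prod, Fintype.card_prod, Fintype.card_finset,
      Fintype.card_fun, Fintype.card_fin, Fintype.card_bool]
    push_cast
    rw [← mul_pow, ← mul_pow]
    norm_num
  have hF : (0 : ℝ) < Fintype.card (Fam n N l W) := by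
    have : 0 < Fintype.card (Fam n N l W) := by
      refine Fintype.card_pos_iff.2 ⟨fun _ _ => (fun _ => (⟨0, by omega⟩, false), false)⟩
    exact_mod_cast this
  have hn1 : (1 : ℝ) ≤ n := by exact_mod_cast hn
  have hlt : (16 : ℝ) ^ n * (2 * Real.exp (-(24 * n))) < 1 := by
    have h1 : (16 : ℝ) ^ n ≤ Real.exp (3 * n) := by
      have h2 : (16 : ℝ) ≤ Real.exp 3 := by
        have h3 : (2.7 : ℝ) ≤ Real.exp 1 := by
          have := Real.exp_one_gt_d9
          linarith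
        calc (16 : ℝ) ≤ 2.7 ^ 3 := by norm_num
          _ ≤ Real.exp 1 ^ 3 := pow_le_pow_left₀ (by norm_num) h3 3
          _ = Real.exp 3 := by
            rw [← Real.exp_nat_mul]
            norm_num
      calc (16 : ℝ) ^ n ≤ Real.exp 3 ^ n := pow_le_pow_left₀ (by norm_num) h2 n
        _ = Real.exp (3 * n) := by
          rw [← Real.exp_nat_mul]
          congr 1
          ring
    have h2 : (2 : ℝ) ≤ Real.exp n := by
      have := Real.add_one_le_exp (n : ℝ)
      linarith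
    calc (16 : ℝ) ^ n * (2 * Real.exp (-(24 * n))) ≤
          Real.exp (3 * n) * (Real.exp n * Real.exp (-(24 * n))) := by gcongr
      _ = Real.exp (3 * n + (n + -(24 * n))) := by
          rw [Real.exp_add, Real.exp_add]
      _ < 1 := by
          rw [Real.exp_lt_one_iff]
          linarith
  have h5 : 16 ^ n * (Fintype.card (Fam n N l W) * (2 * Real.exp (-(24 * (n : ℝ))))) <
      Fintype.card (Fam n N l W) := by
    calc 16 ^ n * (Fintype.card (Fam n N l W) * (2 * Real.exp (-(24 * (n : ℝ))))) =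
          Fintype.card (Fam n N l W) * (16 ^ n * (2 * Real.exp (-(24 * (n : ℝ))))) := by ring
      _ < Fintype.card (Fam n N l W) * 1 := mul_lt_mul_of_pos_left hlt hF
      _ = _ := mul_one _
  linarith

/-- The discrepancy of a function with small correlations. -/
theorem disc (hG : S_CorGb) {n d : ℕ} {s₀ : ℝ} (g : (Fin n → Bool) → ℝ) (hg : ∀ x, |g x| ≤ 1)
    (hd : 1 ≤ d) (hv : (vol n d : ℝ) ≤ Real.exp (s₀ / 200)) (h0 : 1000 ≤ s₀)
    (hcor : ∀ (U : Finset (Fin n)) (b b' : Fin n → Bool), s₀ ≤ U.card →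
      d ≤ ((univ \ U).filter (fun v => b v ≠ b' v)).card →
      |∑ a : Fin n → Bool, g (glue U a b) * g (glue U a b')| ≤
        2 ^ n * Real.exp (-((U.card : ℝ) / 100))) :
    GoodF n s₀ g := by
  intro s hs U A B hUs hA hB hAU hBU
  have key := hG n d g U (Real.exp (-((s : ℝ) / 100))) hg (Real.exp_pos _).le hd (fun b b' hb => by
    have h1 := hcor U b b' (by rw [hUs]; exact hs) hb
    rwa [hUs] at h1) A B hAU hBU
  rw [hUs] at key
  have ha0 : (0 : ℝ) ≤ A.card := Nat.cast_nonneg _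
  have hb0 : (0 : ℝ) ≤ B.card := Nat.cast_nonneg _
  have h1 : (2 : ℝ) ^ s ≤ A.card * Real.exp ((s : ℝ) / 1000) := by
    calc (2 : ℝ) ^ s = 2 ^ s * Real.exp (-((s : ℝ) / 1000)) * Real.exp ((s : ℝ) / 1000) := by
          rw [mul_assoc, ← Real.exp_add, neg_add_cancel, Real.exp_zero, mul_one]
      _ ≤ _ := mul_le_mul_of_nonneg_right hA (Real.exp_pos _).le
  have hd2 : (vol n d : ℝ) ≤ Real.exp (s / 200) := hv.trans (Real.exp_le_exp.2 (by linarith))
  have h2 : (B.card : ℝ) * vol n d ≤ B.card ^ 2 * Real.exp (-((s : ℝ) / 200)) := by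
    calc (B.card : ℝ) * vol n d ≤ B.card * Real.exp (s / 200) :=
          mul_le_mul_of_nonneg_left hd2 hb0
      _ = B.card * (Real.exp ((s : ℝ) / 100) * Real.exp (-((s : ℝ) / 200))) := by
          rw [← Real.exp_add]
          congr 2
          ring
      _ ≤ B.card * (B.card * Real.exp (-((s : ℝ) / 200))) :=
          mul_le_mul_of_nonneg_left (mul_le_mul_of_nonneg_right hB (Real.exp_pos _).le) hb0
      _ = _ := by ring
  have hsp : (0 : ℝ) ≤ s := Nat.cast_nonneg s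
  have h5 : Real.exp (-((s : ℝ) / 100)) ≤ Real.exp (-((s : ℝ) / 200)) :=
    Real.exp_le_exp.2 (by linarith)
  have h3 : (2 : ℝ) * Real.exp ((s : ℝ) / 1000) * Real.exp (-((s : ℝ) / 200)) ≤
      Real.exp (-((s : ℝ) / 1000)) ^ 2 := by
    have h4 : (2 : ℝ) ≤ Real.exp 1 := by
      have := Real.add_one_le_exp (1 : ℝ)
      linarith
    calc (2 : ℝ) * Real.exp ((s : ℝ) / 1000) * Real.exp (-((s : ℝ) / 200)) ≤
          Real.exp 1 * Real.exp ((s : ℝ) / 1000) * Real.exp (-((s : ℝ) / 200)) := by gcongr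
      _ = Real.exp (1 + (s : ℝ) / 1000 + -((s : ℝ) / 200)) := by
          rw [Real.exp_add, Real.exp_add]
      _ ≤ Real.exp (((2 : ℕ) : ℝ) * -((s : ℝ) / 1000)) := by
          refine Real.exp_le_exp.2 ?_
          push_cast
          linarith
      _ = _ := Real.exp_nat_mul _ _
  have h4 : (∑ a ∈ A, ∑ b ∈ B, g (glue U a b)) ^ 2 ≤
      (Real.exp (-((s : ℝ) / 1000)) * A.card * B.card) ^ 2 := by
    calc _ ≤ (A.card : ℝ) * (2 ^ s * (B.card * vol n d +
          B.card ^ 2 * Real.exp (-((s : ℝ) / 100)))) := key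
      _ ≤ A.card * ((A.card * Real.exp ((s : ℝ) / 1000)) *
          (B.card ^ 2 * Real.exp (-((s : ℝ) / 200)) +
            B.card ^ 2 * Real.exp (-((s : ℝ) / 200)))) := by gcongr
      _ = (A.card * B.card) ^ 2 * (2 * Real.exp ((s : ℝ) / 1000) *
          Real.exp (-((s : ℝ) / 200))) := by ring
      _ ≤ (A.card * B.card) ^ 2 * Real.exp (-((s : ℝ) / 1000)) ^ 2 :=
          mul_le_mul_of_nonneg_left h3 (sq_nonneg _)
      _ = _ := by ring
  exact abs_le_of_sq_le_sq h4 (by positivity)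

end FamH

open FamG FamH in
/-- GOOD FUNCTIONS WITH SMALL PARAMETERS. -/
theorem famGoodh (hM : S_Mom) (hC : S_Codeb) (hG : S_CorGb) : S_FamGoodh := by
  classical
  obtain ⟨n₁, hn₁⟩ : ∃ n₁ : ℕ, ∀ n : ℕ, n₁ ≤ n → 10000 ≤ (n : ℝ) ^ (1 / 8 : ℝ) := by
    have h1 : Filter.Tendsto (fun n : ℕ => (n : ℝ) ^ (1 / 8 : ℝ)) Filter.atTop Filter.atTop :=
      (tendsto_rpow_atTop (by norm_num)).comp tendsto_natCast_atTop_atTop
    exact Filter.eventually_atTop.1 (h1.eventually_ge_atTop _)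
  refine ⟨74, max 1 n₁, fun n hn h hh hh8 => ?_⟩
  have hn1 : 1 ≤ n := (le_max_left _ _).trans hn
  have hn2 : n₁ ≤ n := (le_max_right _ _).trans hn
  obtain ⟨d, W, p, l, hd, hp, hWd, hl, hv, hps, hpe, h0, hsz⟩ :=
    paramsh hn1 hh hh8 rfl (hn₁ n hn2)
  have hcode : ∀ U : Finset (Fin n), ∃ D : Finset (Fin n → Bool),
      (∀ x ∈ D, ∀ y ∈ D, x ≠ y → d ≤ (U.filter (fun v => x v ≠ y v)).card) ∧
      (2 : ℝ) ^ U.card ≤ D.card * vol n d := by
    intro U
    obtain ⟨D, -, -, -, h4, h5⟩ := hC n d U hd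
    exact ⟨D, h4, by exact_mod_cast h5⟩
  choose D hD hDc using hcode
  obtain ⟨ω, hω⟩ := FamH.exists_good (W := W) hM hn1 hp hWd hd hl hv (Nat.cast_nonneg _) hps hpe
    rfl D hD hDc
  refine ⟨8 * p * n * 2 ^ l, l, W, ω, hsz, ?_⟩
  refine FamH.disc hG (famc ω) (famc_sq ω) hd hv h0 (fun U b b' hU hb => ?_)
  have hDp : (0 : ℝ) < (D U).card := by
    by_contra h
    rw [not_lt] at h
    have h1 : ((D U).card : ℝ) * vol n d ≤ 0 :=
      mul_nonpos_of_nonpos_of_nonneg h (Nat.cast_nonneg _)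
    have h2 : (0 : ℝ) < 2 ^ U.card := by positivity
    have h3 := hDc U
    linarith
  have h1 := avg (D U) (fun a => famc ω (glue U a b) * famc ω (glue U a b'))
  have h2 : ((D U).card : ℝ) * |∑ a : Fin n → Bool, famc ω (glue U a b) * famc ω (glue U a b')| ≤
      (D U).card * (2 ^ n * Real.exp (-((U.card : ℝ) / 100))) := by
    calc ((D U).card : ℝ) * |∑ a : Fin n → Bool, famc ω (glue U a b) * famc ω (glue U a b')| =
          |((D U).card : ℝ) * ∑ a : Fin n → Bool, famc ω (glue U a b) * famc ω (glue U a b')| := by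
          rw [abs_mul, abs_of_pos hDp]
      _ = |∑ e : Fin n → Bool, ∑ x ∈ D U, famc ω (glue U (fun v => xor (e v) (x v)) b) *
          famc ω (glue U (fun v => xor (e v) (x v)) b')| := by rw [← h1]
      _ ≤ ∑ e : Fin n → Bool, |∑ x ∈ D U, famc ω (glue U (fun v => xor (e v) (x v)) b) *
          famc ω (glue U (fun v => xor (e v) (x v)) b')| := abs_sum_le_sum_abs _ _
      _ ≤ ∑ e : Fin n → Bool, (D U).card * Real.exp (-((U.card : ℝ) / 100)) :=
          sum_le_sum (fun e _ => hω U b b' e hU hb)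
      _ = _ := by
          rw [sum_const, nsmul_eq_mul, card_univ, Fintype.card_fun, Fintype.card_fin,
            Fintype.card_bool]
          push_cast
          ring
  exact le_of_mul_le_mul_left h2 hDp

end SRBP
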