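import Pool.Agent.Lib.MP_9dcf40_lc.DV.TopF
import Pool.Agent.Lib.MP_9dcf40_lc.DW.Spec

/-!
# Small circuits, uniform constant (MP_9dcf40_lc): the main statement for every function with small discrepancy
-/

namespace SRBP

open Finset

open TopX in
/-- TOPFH. -/
theorem topFh (hP : S_ProgU) : S_TopFh := by
  classical
  refine ⟨1000, by norm_num, ?_⟩
  intro n _ h f hh hf k a hk ha hkh hkn P hU hV
  have hK : (2 : ℝ) ≤ k := by exact_mod_cast hk
  have hK1 : (1 : ℝ) ≤ k := by linarith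
  have hK0 : (0 : ℝ) < k := by linarith
  have h0 : 0 < h := by linarith
  obtain ⟨-, h2, h3⟩ := num k a n hk ha hkn
  have h1 : (n : ℝ) / h ≤ n / (k : ℝ) ^ (120 * k) / 16 := by
    rw [div_div]
    refine div_le_div_of_nonneg_left (Nat.cast_nonneg _) (by positivity) ?_
    refine le_trans ?_ hkh
    calc (k : ℝ) ^ (120 * k) * 16 = (k : ℝ) ^ (120 * k) * 2 ^ 4 := by norm_num
      _ ≤ (k : ℝ) ^ (120 * k) * (k : ℝ) ^ 4 := by gcongr
      _ = (k : ℝ) ^ (120 * k + 4) := (pow_add _ _ _).symm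
      _ ≤ _ := pow_le_pow_right₀ hK1 (by omega)
  have hr : 1 ≤ a * k ^ (240 * k + 100) := Nat.mul_pos ha (Nat.pos_of_ne_zero (by positivity))
  obtain ⟨b, sg, dm, hl, hs, hcl⟩ := hP n (a * k ^ (240 * k + 100))
    (k * n / (a * k ^ (240 * k + 100)) + 1) (k * n) P hU hr (Nat.lt_mul_div_succ _ hr).le
  have hι : (Fintype.card (Fin (a * k ^ (240 * k + 100) + 1) → P.V) : ℝ) ≤
      Real.exp (n / (k : ℝ) ^ (120 * k) / 100000) := by
    rw [Fintype.card_fun, Fintype.card_fin]
    push_cast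
    calc (Fintype.card P.V : ℝ) ^ (a * k ^ (240 * k + 100) + 1) ≤
          Real.exp (n / (a * (k : ℝ) ^ (1000 * k))) ^ (a * k ^ (240 * k + 100) + 1) :=
          pow_le_pow_left₀ (Nat.cast_nonneg _) hV.le _
      _ = Real.exp (((a * k ^ (240 * k + 100) + 1 : ℕ) : ℝ) *
          (n / (a * (k : ℝ) ^ (1000 * k)))) := (Real.exp_nat_mul _ _).symm
      _ ≤ _ := Real.exp_le_exp.2 h2
  have key := coreX k a n hk ha hkn (ShU P (k * n)) b sg dm hl hs (fun u => by convert hcl u) hι
    (chi f) (fun y => by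
      unfold chi
      split_ifs <;> norm_num) (fun s hs => hf s (h1.trans hs))
  refine key.trans (add_le_add le_rfl ?_)
  exact mul_le_mul_of_nonneg_left (Real.exp_le_exp.2 (neg_le_neg h3)) (by positivity)

end SRBP
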