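import Pool.Agent.Lib.MP_9dcf40_lc.DW.FinK
import Pool.Agent.Lib.MP_9dcf40_lc.DW.Good
import Pool.Agent.Lib.MP_9dcf40_lc.DW.Code
import Pool.Agent.Lib.MP_9dcf40_lc.DW.Cor
import Pool.Agent.Lib.MP_9dcf40_lc.DW.TopF
import Pool.Agent.Lib.MP_9dcf40_lc.DW.EndG
import Pool.Agent.Lib.MP_9dcf40_lc.DV.Pos
import Pool.Agent.Lib.MP_9dcf40_lc.DV.Mom
import Pool.Agent.Lib.MP_9dcf40_lc.DV.Ckt
import Pool.Agent.Lib.MP_9dcf40_lc.DU.Prog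
import Pool.Agent.Lib.MP_9dcf40_lc.DU.Res
import Pool.Agent.Lib.MP_9dcf40_lc.DU.Len
import Pool.Agent.Lib.MP_9dcf40_lc.DU.Det

/-!
# The final statement (MP_9dcf40_lc): all modules together
-/

namespace SRBP

theorem finAll : ∃ A N : ℕ, 1 ≤ A ∧ ∀ n ≥ N, ∀ K m : ℕ, n * K ^ (A * K) ≤ m →
      ∃ c : GBits n m → Bool, PartK1 A n K (GVal n m c) ∧ PartK2 A n K (GBits n m) c (OddG n m) ∧
        PartK3 A n K (GBits n m) (OddG n m) :=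
  finK (famGoodh (tMom tPos) tCodeb tCorGb) (topFh tProgU) tCkt (tEndGh tResU tLenU)

end SRBP
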