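import Pool.Agent.Lib.MP_9dcf40_lc.DW.Spec

/-!
# The final statement (MP_9dcf40_lc), uniform constant
-/

namespace SRBP

open Finset

theorem goodF_neg' {n : ℕ} {s₀ : ℝ} {g h : (Fin n → Bool) → ℝ} (hgh : ∀ y, h y = -g y)
    (hg : GoodF n s₀ g) : GoodF n s₀ h := by
  intro s hs U A B h1 h2 h3 h4 h5
  have h6 := hg s hs U A B h1 h2 h3 h4 h5
  have h7 : ∑ a ∈ A, ∑ b ∈ B, h (glue U a b) = -∑ a ∈ A, ∑ b ∈ B, g (glue U a b) := by
    rw [← sum_neg_distrib]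
    refine sum_congr rfl (fun a _ => ?_)
    rw [← sum_neg_distrib]
    exact sum_congr rfl (fun b _ => hgh _)
  rw [h7, abs_neg]
  exact h6

/-- Larger `h`, larger `A`. -/
theorem topXh_mono {A A' n : ℕ} {h h' : ℝ} {f : (Fin n → Bool) → Prop} (hA : 8 * A ≤ A') (hn : 1 ≤ n)
    (hh : h' = min h ((n : ℝ) ^ (1 / 8 : ℝ))) (H : TopXh A n h' f) : TopXh A' n h f := by
  intro k a hk ha hkh hkn P hP hV
  have hn1 : (1 : ℝ) ≤ n := by exact_mod_cast hn
  have hn0 : (0 : ℝ) < n := by linarith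
  have hk2 : (2 : ℝ) ≤ k := by exact_mod_cast hk
  have hk1 : (1 : ℝ) ≤ k := by linarith
  have ha1 : (1 : ℝ) ≤ a := by exact_mod_cast ha
  have ha0 : (0 : ℝ) < a := by linarith
  have e1 : (k : ℝ) ^ (A * k) ≤ (k : ℝ) ^ (A' * k) := pow_le_pow_right₀ hk1 (by nlinarith)
  have e2 : ((k : ℝ) ^ (A * k)) ^ 8 ≤ (k : ℝ) ^ (A' * k) := by
    rw [← pow_mul]
    exact pow_le_pow_right₀ hk1 (by nlinarith)
  have hp0 : (0 : ℝ) < (k : ℝ) ^ (A * k) := by positivity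
  have hp1 : (0 : ℝ) < (k : ℝ) ^ (A' * k) := by positivity
  have e3 : (k : ℝ) ^ (A' * k) ≤ n := by
    refine le_trans ?_ hkn
    exact le_mul_of_one_le_left hp1.le ha1
  have e4 : (k : ℝ) ^ (A * k) ≤ (n : ℝ) ^ (1 / 8 : ℝ) := by
    have h3 := Real.rpow_le_rpow (by positivity) (e2.trans e3) (show (0 : ℝ) ≤ 1 / 8 by norm_num)
    rwa [← Real.rpow_natCast, ← Real.rpow_mul hp0.le,
      show ((8 : ℕ) : ℝ) * (1 / 8 : ℝ) = 1 by norm_num, Real.rpow_one] at h3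
  have e5 : (k : ℝ) ^ (A * k) ≤ h' := by
    rw [hh]
    exact le_min (e1.trans hkh) e4
  have e6 : a * (k : ℝ) ^ (A * k) ≤ n := (mul_le_mul_of_nonneg_left e1 ha0.le).trans hkn
  have h1 := H k a hk ha e5 e6 P hP (lt_of_lt_of_le hV (Real.exp_le_exp.2
    (div_le_div_of_nonneg_left hn0.le (by positivity) (mul_le_mul_of_nonneg_left e1 ha0.le))))
  refine h1.trans (add_le_add le_rfl (mul_le_mul_of_nonneg_left (Real.exp_le_exp.2 (neg_le_neg ?_))
    (by positivity)))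
  exact div_le_div_of_nonneg_left hn0.le hp0 e1

/-- No `k` is admitted if `h < 2`. -/
theorem noK {A k : ℕ} {h : ℝ} (hA : 1 ≤ A) (hk : 2 ≤ k) (hh : h < 2) (H : (k : ℝ) ^ (A * k) ≤ h) : False := by
  have hk2 : (2 : ℝ) ≤ k := by exact_mod_cast hk
  have h1 : (k : ℝ) ^ 1 ≤ (k : ℝ) ^ (A * k) := pow_le_pow_right₀ (by linarith) (by nlinarith)
  rw [pow_one] at h1
  linarith

theorem finH (h1 : S_FamGoodh) (h2 : S_TopFh) (h3 : S_Ckt) (h4 : S_EndGh) :
    ∃ A N : ℕ, 1 ≤ A ∧ ∀ n ≥ N, ∀ (h : ℝ) (m : ℕ), n * h ^ A ≤ m →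
      ∃ c : GBits n m → Bool, PartH1 A n h (GVal n m c) ∧ PartH2 A n h (GBits n m) c (OddG n m) ∧
        PartH3 A n h (GBits n m) (OddG n m) := by
  classical
  obtain ⟨A₀, n₁, h1⟩ := h1
  obtain ⟨A₁, hA₁, h2⟩ := h2
  obtain ⟨A, n₃, hA, h4⟩ := h4 (8 * A₁ + A₀) (by omega)
  refine ⟨A, max n₁ (max n₃ 256), by omega, fun n hn h m hm => ?_⟩
  have k1 : n₁ ≤ n := le_trans (le_max_left _ _) hn
  have k3 : n₃ ≤ n := le_trans (le_max_left _ _) (le_trans (le_max_right _ _) hn)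
  have k4 : 256 ≤ n := le_trans (le_max_right _ _) (le_trans (le_max_right _ _) hn)
  have k5 : (256 : ℝ) ≤ n := by exact_mod_cast k4
  have k6 : (1 : ℝ) ≤ n := by linarith
  by_cases hh : h < 2
  · refine ⟨fun _ => false, ?_, ?_, ?_⟩
    · intro k a hk ha hkh
      exact (noK (by omega) hk hh hkh).elim
    · intro k a hk ha hkh
      exact (noK (by omega) hk hh hkh).elim
    · intro k a hk ha hkh
      exact (noK (by omega) hk hh hkh).elim
  rw [not_lt] at hh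
  obtain ⟨h', hh'⟩ : ∃ h', h' = min h ((n : ℝ) ^ (1 / 8 : ℝ)) := ⟨_, rfl⟩
  have e1 : 2 ≤ h' := by
    rw [hh']
    refine le_min hh ?_
    calc (2 : ℝ) = ((256 : ℝ)) ^ (1 / 8 : ℝ) := by
          rw [show (256 : ℝ) = 2 ^ (8 : ℕ) by norm_num, ← Real.rpow_natCast, ← Real.rpow_mul (by norm_num)]
          norm_num
      _ ≤ _ := Real.rpow_le_rpow (by norm_num) k5 (by norm_num)
  have e2 : h' ^ 8 ≤ n := by
    have h5 : h' ≤ (n : ℝ) ^ (1 / 8 : ℝ) := by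
      rw [hh']
      exact min_le_right _ _
    calc h' ^ 8 ≤ ((n : ℝ) ^ (1 / 8 : ℝ)) ^ 8 := pow_le_pow_left₀ (by linarith) h5 8
      _ = n := by
          rw [← Real.rpow_natCast, ← Real.rpow_mul (by linarith)]
          norm_num
  have e3 : h' ≤ h := by
    rw [hh']
    exact min_le_left _ _
  obtain ⟨N, l, W, ω, hsz, hgood⟩ := h1 n k1 h' e1 e2
  have hsz' : N * (l * (6 * W + 6) + 6) + 6 ≤ m := by
    have h5 : (n : ℝ) * h' ^ A₀ ≤ n * h ^ A := by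
      refine mul_le_mul_of_nonneg_left ?_ (by linarith)
      exact (pow_le_pow_left₀ (by linarith) e3 _).trans (pow_le_pow_right₀ (by linarith) (by omega))
    exact_mod_cast hsz.trans (h5.trans hm)
  obtain ⟨c, hc⟩ := h3 n N l W m ω (by omega) hsz'
  have h6 : GVal n m c = fun y => fam ω y = 1 := funext (fun y => propext (hc y))
  have h7 : TopXh (8 * A₁ + A₀) n h (GVal n m c) := by
    rw [h6]
    refine topXh_mono (by omega) (by omega) hh' (h2 n (by omega) h' _ (by linarith)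
      (goodF_neg' (fun y => ?_) hgood))
    unfold chi famc
    split_ifs <;> norm_num
  have hm1 : 1 ≤ m := by omega
  have : Nonempty (GBits n m) := ⟨(⟨0, hm1⟩, true, ⟨0, Nat.size_pos.2 (by omega)⟩)⟩
  obtain ⟨p1, p2, p3⟩ := h4 n k3 (GBits n m) (GVal n m) c h h7
  exact ⟨c, p1, p2, p3⟩

end SRBP
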