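import Pool.Agent.Lib.MP_9dcf40_lc.DW.Fin

/-!
# The final statement (MP_9dcf40_lc), with the largest `k` instead of `h`
-/

namespace SRBP

open Finset

/-- Part (1) for `k ≤ K`. -/
def PartK1 (A n K : ℕ) (f : (Fin n → Bool) → Prop) : Prop :=
  ∀ k a : ℕ, 2 ≤ k → k ≤ K → 1 ≤ a → a * (k : ℝ) ^ (A * k) ≤ n →
    ∀ P : NBP (Fin n), SUnamb P → (Fintype.card P.V : ℝ) < Real.exp (n / (a * (k : ℝ) ^ (A * k))) →
    |(Nat.card {y : Fin n → Bool // AccIn P (k * n) y ∧ f y} : ℝ) -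
        Nat.card {y : Fin n → Bool // AccIn P (k * n) y ∧ ¬ f y}| ≤
      (Nat.card {y : Fin n → Bool // AccIn P (k * n) y} : ℝ) / 2 ^ a +
        2 ^ n * Real.exp (-(n / (k : ℝ) ^ (A * k)))

/-- Part (2) for `k ≤ K`. -/
def PartK2 (A n K : ℕ) (κ : Type) [Fintype κ] (c : κ → Bool)
    (F : ∀ t : ℕ, (κ ⊕ Fin t × Fin n → Bool) → Prop) : Prop :=
  ∀ k a : ℕ, 2 ≤ k → k ≤ K → 1 ≤ a → a ^ 2 * (k : ℝ) ^ (A * k) * Real.log n ≤ n →
    ∀ t T : ℕ, Fintype.card κ ≤ t * n → T = k * Fintype.card (κ ⊕ Fin t × Fin n) →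
    ∀ P : NBP (κ ⊕ Fin t × Fin n), SUnamb P →
    (Fintype.card P.V : ℝ) < Real.exp (n / (a * (k : ℝ) ^ (A * k))) →
    |(Nat.card {Y : Fin t × Fin n → Bool // AccIn P T (Sum.elim c Y) ∧ F t (Sum.elim c Y)} : ℝ) -
        Nat.card {Y : Fin t × Fin n → Bool // AccIn P T (Sum.elim c Y) ∧ ¬ F t (Sum.elim c Y)}| ≤
      (Nat.card {Y : Fin t × Fin n → Bool // AccIn P T (Sum.elim c Y)} : ℝ) / 2 ^ a +
        2 ^ (t * n) * Real.exp (-(n / (k : ℝ) ^ (A * k)))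

/-- Part (3) for `k ≤ K`. -/
def PartK3 (A n K : ℕ) (κ : Type) [Fintype κ] (F : ∀ t : ℕ, (κ ⊕ Fin t × Fin n → Bool) → Prop) : Prop :=
  ∀ k a : ℕ, 2 ≤ k → k ≤ K → 1 ≤ a → a ^ 2 * (k : ℝ) ^ (A * k) * Real.log n ≤ n →
    ∀ t T : ℕ, Fintype.card κ ≤ t * n → T = k * Fintype.card (κ ⊕ Fin t × Fin n) →
    ∀ (I : Type) [Fintype I] (P : I → Bool → NBP (κ ⊕ Fin t × Fin n)) (w : I → ℝ),
      (∀ i, 0 ≤ w i) → ∑ i, w i = 1 → (∀ i b, SUnamb (P i b)) →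
      (∀ i T z, ¬ (AccIn (P i true) T z ∧ AccIn (P i false) T z)) →
      (∀ i b, (Fintype.card (P i b).V : ℝ) < Real.exp (n / (a * (k : ℝ) ^ (A * k)))) →
      ∃ z : κ ⊕ Fin t × Fin n → Bool, ∀ S : Finset I,
        (∀ i ∈ S, ∃ b : Bool, AccIn (P i b) T z ∧ (b = true ↔ F t z)) → ∑ i ∈ S, w i < 1 / 2 + 1 / 2 ^ a

theorem kA {A A' k K : ℕ} (hA : A ≤ A') (hk : 2 ≤ k) (hkK : k ≤ K) :
    (k : ℝ) ^ (A * k) ≤ (K : ℝ) ^ (A * K) ∧ (k : ℝ) ^ (A * k) ≤ (k : ℝ) ^ (A' * k) ∧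
    (0 : ℝ) < (k : ℝ) ^ (A * k) := by
  have hk2 : (2 : ℝ) ≤ k := by exact_mod_cast hk
  have hkK' : (k : ℝ) ≤ K := by exact_mod_cast hkK
  refine ⟨?_, ?_, by positivity⟩
  · exact (pow_le_pow_left₀ (by linarith) hkK' _).trans
      (pow_le_pow_right₀ (by linarith) (Nat.mul_le_mul_left A hkK))
  · exact pow_le_pow_right₀ (by linarith) (Nat.mul_le_mul_right k hA)

theorem kSz {A A' k a n : ℕ} (h : (k : ℝ) ^ (A * k) ≤ (k : ℝ) ^ (A' * k)) (h0 : (0 : ℝ) < (k : ℝ) ^ (A * k))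
    (ha : 1 ≤ a) {x : ℝ} (hx : x < Real.exp (n / (a * (k : ℝ) ^ (A' * k)))) :
    x < Real.exp (n / (a * (k : ℝ) ^ (A * k))) := by
  have ha1 : (1 : ℝ) ≤ a := by exact_mod_cast ha
  refine lt_of_lt_of_le hx (Real.exp_le_exp.2 ?_)
  exact div_le_div_of_nonneg_left (Nat.cast_nonneg _) (by positivity)
    (mul_le_mul_of_nonneg_left h (by linarith))

theorem kEr {A A' k n : ℕ} (h : (k : ℝ) ^ (A * k) ≤ (k : ℝ) ^ (A' * k)) (h0 : (0 : ℝ) < (k : ℝ) ^ (A * k))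
    {x : ℝ} (hx : 0 ≤ x) : x * Real.exp (-(n / (k : ℝ) ^ (A * k))) ≤
    x * Real.exp (-(n / (k : ℝ) ^ (A' * k))) :=
  mul_le_mul_of_nonneg_left (Real.exp_le_exp.2 (neg_le_neg
    (div_le_div_of_nonneg_left (Nat.cast_nonneg _) h0 h))) hx

theorem finK (h1 : S_FamGoodh) (h2 : S_TopFh) (h3 : S_Ckt) (h4 : S_EndGh) :
    ∃ A N : ℕ, 1 ≤ A ∧ ∀ n ≥ N, ∀ K m : ℕ, n * K ^ (A * K) ≤ m →
      ∃ c : GBits n m → Bool, PartK1 A n K (GVal n m c) ∧ PartK2 A n K (GBits n m) c (OddG n m) ∧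
        PartK3 A n K (GBits n m) (OddG n m) := by
  obtain ⟨A, N, hA, h⟩ := finH h1 h2 h3 h4
  refine ⟨A * A, N, Nat.one_le_iff_ne_zero.2 (by positivity), fun n hn K m hm => ?_⟩
  have hAA : A ≤ A * A := by nlinarith
  obtain ⟨c, p1, p2, p3⟩ := h n hn ((K : ℝ) ^ (A * K)) m (by
    have e : ((K : ℝ) ^ (A * K)) ^ A = ((K ^ (A * A * K) : ℕ) : ℝ) := by
      push_cast
      rw [← pow_mul]
      congr 1
      ring
    rw [e]
    exact_mod_cast hm)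
  refine ⟨c, ?_, ?_, ?_⟩
  · intro k a hk hkK ha hkn P hP hV
    obtain ⟨e1, e2, e3⟩ := kA hAA hk hkK
    have ha1 : (1 : ℝ) ≤ a := by exact_mod_cast ha
    have h5 := p1 k a hk ha e1 ((mul_le_mul_of_nonneg_left e2 (by linarith)).trans hkn) P hP
      (kSz e2 e3 ha hV)
    exact h5.trans (add_le_add le_rfl (kEr e2 e3 (by positivity)))
  · intro k a hk hkK ha hkn t T ht hT P hP hV
    obtain ⟨e1, e2, e3⟩ := kA hAA hk hkK
    have hl : 0 ≤ Real.log n := Real.log_natCast_nonneg n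
    have h5 := p2 k a hk ha e1 ((mul_le_mul_of_nonneg_right
      (mul_le_mul_of_nonneg_left e2 (by positivity)) hl).trans hkn) t T ht hT P hP (kSz e2 e3 ha hV)
    exact h5.trans (add_le_add le_rfl (kEr e2 e3 (by positivity)))
  · intro k a hk hkK ha hkn t T ht hT I _ P w hw hw1 hP hd hV
    obtain ⟨e1, e2, e3⟩ := kA hAA hk hkK
    have hl : 0 ≤ Real.log n := Real.log_natCast_nonneg n
    exact p3 k a hk ha e1 ((mul_le_mul_of_nonneg_right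
      (mul_le_mul_of_nonneg_left e2 (by positivity)) hl).trans hkn) t T ht hT I P w hw hw1 hP hd
      (fun i b => kSz e2 e3 ha (hV i b))

end SRBP
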