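import Pool.Agent.Lib.MP_9dcf40_lc.DW.FinK

/-!
# The time-space tradeoff (MP_9dcf40_lc): a consequence of the part (3)
-/

namespace SRBP

open Finset Filter

/-- The time-space tradeoff: for large `v`, `a ≥ 1` and `a ln v ≤ S ≤ v / (a (ln v)^2)` there are `n`, `m`,
`t` such that circuits and `t` inputs have at most `v` bits, and for each probability distribution on pairs of
strongly unambiguous programs with at most `2 ^ S` states (one accepts inputs for which `OddG` is true, the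
other one those for which it is false) some input gets the right answer with at most
`c₀ v ln (v / (a S)) / ln ln (v / (a S))` tests with probability less than `1 / 2 + 2 ^ (-a)`. -/
def StTrd : Prop := ∃ c₀ : ℝ, 0 < c₀ ∧ ∃ V : ℕ, ∀ v ≥ V, ∀ (a : ℕ) (S : ℝ), 1 ≤ a →
  a * Real.log v ≤ S → a * S * Real.log v ^ 2 ≤ v →
  ∃ n m t : ℕ, Fintype.card (GBits n m ⊕ Fin t × Fin n) ≤ v ∧
    ∀ T : ℕ, (T : ℝ) ≤ c₀ * v * Real.log (v / (a * S)) / Real.log (Real.log (v / (a * S))) →
    ∀ (I : Type) [Fintype I] (P : I → Bool → NBP (GBits n m ⊕ Fin t × Fin n)) (w : I → ℝ),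
      (∀ i, 0 ≤ w i) → ∑ i, w i = 1 → (∀ i b, SUnamb (P i b)) →
      (∀ i T z, ¬ (AccIn (P i true) T z ∧ AccIn (P i false) T z)) →
      (∀ i b, (Fintype.card (P i b).V : ℝ) ≤ 2 ^ S) →
      ∃ z : GBits n m ⊕ Fin t × Fin n → Bool, ∀ X : Finset I,
        (∀ i ∈ X, ∃ b : Bool, AccIn (P i b) T z ∧ (b = true ↔ OddG n m t z)) →
          ∑ i ∈ X, w i < 1 / 2 + 1 / 2 ^ a

theorem accIn_mono {ι : Type} {P : NBP ι} {T T' : ℕ} (h : T ≤ T') {x : ι → Bool} (hx : AccIn P T x) :
    AccIn P T' x := by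
  obtain ⟨l, v, h1, h2, h3⟩ := hx
  exact ⟨l, v, h1, h2, h3.trans h⟩

/-- thresholds -/
theorem trdEv (A : ℕ) : ∃ x0 : ℝ, ∀ x : ℝ, x0 ≤ x →
    16 * A * Real.log x ≤ x ∧ 1 ≤ Real.log x ∧ 1 ≤ x ∧ 16 ≤ Real.exp (x / 4) := by
  have h1 : ∀ᶠ x : ℝ in atTop, 16 * A * Real.log x ≤ x := by
    have h := Real.isLittleO_log_id_atTop.bound (c := 1 / (16 * A + 1)) (by positivity)
    filter_upwards [h, eventually_ge_atTop (1 : ℝ)] with x hx hx1
    have hl : 0 ≤ Real.log x := Real.log_nonneg hx1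
    simp only [id, Real.norm_eq_abs, abs_of_nonneg hl, abs_of_nonneg (by linarith : (0 : ℝ) ≤ x)] at hx
    have h2 : (16 * (A : ℝ) + 1) * Real.log x ≤ x := by
      calc (16 * (A : ℝ) + 1) * Real.log x ≤ (16 * (A : ℝ) + 1) * (1 / (16 * A + 1) * x) :=
            mul_le_mul_of_nonneg_left hx (by positivity)
        _ = x := by field_simp
    nlinarith
  have h2 : ∀ᶠ x : ℝ in atTop, 1 ≤ Real.log x := Real.tendsto_log_atTop.eventually_ge_atTop 1
  have h3 : ∀ᶠ x : ℝ in atTop, 16 ≤ Real.exp (x / 4) := by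
    have : Tendsto (fun x : ℝ => Real.exp (x / 4)) atTop atTop :=
      Real.tendsto_exp_atTop.comp (tendsto_id.atTop_div_const (by norm_num))
    exact this.eventually_ge_atTop _
  obtain ⟨x0, hx0⟩ := eventually_atTop.1 (h1.and (h2.and ((eventually_ge_atTop (1 : ℝ)).and h3)))
  exact ⟨x0, fun x hx => ⟨(hx0 x hx).1, (hx0 x hx).2.1, (hx0 x hx).2.2.1, (hx0 x hx).2.2.2⟩⟩

theorem trdEv2 (x0 : ℝ) (N : ℕ) : ∃ V : ℕ, ∀ v : ℕ, V ≤ v →
    x0 ≤ 2 * Real.log (Real.log v) ∧ 2 ≤ Real.log v ∧ 16 * Real.log v ≤ Real.exp (Real.log v / 8) ∧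
    (N : ℝ) ≤ Real.exp (Real.log v / 2) := by
  have h1 : ∀ᶠ L : ℝ in atTop, x0 ≤ 2 * Real.log L := by
    have : Tendsto (fun x : ℝ => 2 * Real.log x) atTop atTop :=
      Real.tendsto_log_atTop.const_mul_atTop (by norm_num)
    exact this.eventually_ge_atTop _
  have h3 : ∀ᶠ L : ℝ in atTop, 16 * L ≤ Real.exp (L / 8) := by
    have h := (Real.tendsto_exp_div_pow_atTop 1).comp
      (tendsto_id.atTop_div_const (by norm_num : (0 : ℝ) < 8))
    filter_upwards [h.eventually_ge_atTop 128, eventually_ge_atTop (1 : ℝ)] with x hx hx1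
    simp only [Function.comp, id, pow_one] at hx
    rw [le_div_iff₀ (by linarith)] at hx
    linarith
  have h4 : Tendsto (fun x : ℝ => Real.exp (x / 2)) atTop atTop :=
    Real.tendsto_exp_atTop.comp (tendsto_id.atTop_div_const (by norm_num))
  have h5 : ∀ᶠ L : ℝ in atTop, x0 ≤ 2 * Real.log L ∧ 2 ≤ L ∧ 16 * L ≤ Real.exp (L / 8) ∧
      (N : ℝ) ≤ Real.exp (L / 2) :=
    h1.and ((eventually_ge_atTop 2).and (h3.and (h4.eventually_ge_atTop _)))
  have h6 : Tendsto (fun v : ℕ => Real.log v) atTop atTop :=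
    Real.tendsto_log_atTop.comp tendsto_natCast_atTop_atTop
  exact eventually_atTop.1 (h6.eventually h5)

/-- the length of a binary number -/
theorem trdSize {x : ℕ} (hx : 1 ≤ x) : (Nat.size x : ℝ) ≤ Real.log x / Real.log 2 + 1 ∧
    Real.log x / Real.log 2 ≤ Nat.size x := by
  have hl2 : 0 < Real.log 2 := Real.log_pos (by norm_num)
  have hx0 : (0 : ℝ) < x := by exact_mod_cast hx
  constructor
  · have h1 : 2 ^ (Nat.size x - 1) ≤ x := by
      have h2 : Nat.size x - 1 < Nat.size x := by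
        have : 0 < Nat.size x := Nat.size_pos.2 hx
        omega
      exact Nat.lt_size.1 h2
    have h3 : ((2 : ℝ) ^ (Nat.size x - 1)) ≤ x := by exact_mod_cast h1
    have h4 := Real.log_le_log (by positivity) h3
    rw [Real.log_pow] at h4
    have h5 : ((Nat.size x - 1 : ℕ) : ℝ) ≤ Real.log x / Real.log 2 := by
      rw [le_div_iff₀ hl2]; exact h4
    have h6 : 1 ≤ Nat.size x := Nat.size_pos.2 hx
    rw [Nat.cast_sub h6] at h5
    push_cast at h5
    linarith
  · rw [div_le_iff₀ hl2]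
    have h3 : (x : ℝ) ≤ (2 : ℝ) ^ (Nat.size x) := by exact_mod_cast (Nat.lt_size_self x).le
    have h4 := Real.log_le_log hx0 h3
    rwa [Real.log_pow] at h4

/-- the choice of the parameters -/
theorem trdCore (A N : ℕ) (hA : 1 ≤ A) : ∃ V : ℕ, ∀ v : ℕ, V ≤ v → ∀ (a : ℕ) (S : ℝ), 1 ≤ a →
    a * Real.log v ≤ S → a * S * Real.log v ^ 2 ≤ v → ∃ k n : ℕ, 2 ≤ k ∧ N ≤ n ∧
      (a : ℝ) ^ 2 * (k : ℝ) ^ (A * k) * Real.log n ≤ n ∧
      (2 : ℝ) ^ S < Real.exp (n / (a * (k : ℝ) ^ (A * k))) ∧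
      (4 * (n : ℝ) * (k : ℝ) ^ (A * k) * Nat.size (n + n * k ^ (A * k)) ≤ v) ∧
      1 / (128 * A) * v * Real.log (v / (a * S)) / Real.log (Real.log (v / (a * S))) ≤
        k * (4 * (n : ℝ) * (k : ℝ) ^ (A * k) * Nat.size (n + n * k ^ (A * k))) := by
  obtain ⟨x0, hx0⟩ := trdEv A
  obtain ⟨V, hV⟩ := trdEv2 x0 N
  refine ⟨max V 1, fun v hv a S ha haS hSv => ?_⟩
  have hv1 : 1 ≤ v := (le_max_right _ _).trans hv
  have hv0 : (0 : ℝ) < v := by exact_mod_cast hv1
  obtain ⟨t1, t2, t3, t5⟩ := hV v ((le_max_left _ _).trans hv)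
  have hA1 : (1 : ℝ) ≤ A := by exact_mod_cast hA
  have ha1 : (1 : ℝ) ≤ a := by exact_mod_cast ha
  set L := Real.log v with hL
  have hLv : Real.exp L = v := Real.exp_log hv0
  have hL0 : 0 < L := by linarith
  have hS : 2 ≤ S := by nlinarith
  have hS0 : 0 < S := by linarith
  have haS1 : 1 ≤ a * S := by nlinarith
  set r : ℝ := v / (a * S) with hr
  have hr0 : 0 < r := by positivity
  have hrL : L ^ 2 ≤ r := by
    rw [hr, le_div_iff₀ (by linarith), mul_comm]
    exact hSv
  have hrv : r ≤ v := div_le_self hv0.le haS1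
  have hra : a * S * r = v := by rw [hr]; field_simp
  set l := Real.log r with hl
  have hlr : Real.exp l = r := Real.exp_log hr0
  have hl1 : 2 * Real.log L ≤ l := by
    have := Real.log_le_log (by positivity) hrL
    rw [Real.log_pow] at this
    push_cast at this
    exact this
  have hl2 : l ≤ L := Real.log_le_log hr0 hrv
  obtain ⟨u1, u2, u3, u4⟩ := hx0 l (t1.trans hl1)
  have hLl : L ≤ Real.exp (l / 2) := by
    rw [← Real.exp_log hL0]
    exact Real.exp_le_exp.2 (by linarith)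
  set g := Real.log l with hg
  -- the number k
  set q : ℝ := l / (8 * A * g) with hq
  have hq2 : 2 ≤ q := by
    rw [hq, le_div_iff₀ (by positivity)]
    linarith
  have hql : q ≤ l := by
    rw [hq]
    refine div_le_self (by linarith) ?_
    nlinarith
  set k := ⌊q⌋₊ with hk
  have hkq : (k : ℝ) ≤ q := Nat.floor_le (by linarith)
  have hk2 : 2 ≤ k := Nat.le_floor (by exact_mod_cast hq2)
  have hkq2 : q / 2 ≤ k := by
    have := Nat.lt_floor_add_one q
    rw [← hk] at this
    linarith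
  have hk0 : (0 : ℝ) < k := by
    have : 0 < k := by omega
    exact_mod_cast this
  set H : ℝ := (k : ℝ) ^ (A * k) with hH
  have hH1 : 1 ≤ H := by
    rw [hH]
    exact one_le_pow₀ (by exact_mod_cast (by omega : 1 ≤ k))
  have hH0 : 0 < H := by linarith
  have hHl : H ≤ Real.exp (l / 8) := by
    rw [← Real.exp_log hH0]
    refine Real.exp_le_exp.2 ?_
    rw [hH, Real.log_pow]
    push_cast
    have h1 : Real.log k ≤ g := Real.log_le_log hk0 (hkq.trans hql)
    have h2 : (A : ℝ) * k * Real.log k ≤ A * q * g := by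
      have h3 : 0 ≤ Real.log (k : ℝ) := Real.log_natCast_nonneg k
      have : (A : ℝ) * k ≤ A * q := mul_le_mul_of_nonneg_left hkq (by linarith)
      exact mul_le_mul this h1 h3 (by positivity)
    have h4 : (A : ℝ) * q * g = l / 8 := by
      rw [hq]
      field_simp
    linarith
  -- the number n
  have hHL : H * L ≤ Real.exp (L / 4) / 16 := by
    have h1 : H ≤ Real.exp (L / 8) := hHl.trans (Real.exp_le_exp.2 (by linarith))
    have h2 : L ≤ Real.exp (L / 8) / 16 := by linarith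
    have h3 : Real.exp (L / 4) = Real.exp (L / 8) * Real.exp (L / 8) := by
      rw [← Real.exp_add]; congr 1; ring
    calc H * L ≤ Real.exp (L / 8) * (Real.exp (L / 8) / 16) :=
          mul_le_mul h1 h2 hL0.le (Real.exp_pos _).le
      _ = Real.exp (L / 4) / 16 := by rw [h3]; ring
  have hHL0 : 0 < H * L := by positivity
  set y : ℝ := v / (16 * (H * L)) with hy
  have hye : Real.exp (3 * L / 4) ≤ y := by
    rw [hy, le_div_iff₀ (by positivity), ← hLv]
    have h3 : Real.exp L = Real.exp (3 * L / 4) * Real.exp (L / 4) := by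
      rw [← Real.exp_add]; congr 1; ring
    rw [h3]
    exact mul_le_mul_of_nonneg_left (by linarith) (Real.exp_pos _).le
  have hy1 : 1 ≤ y := (Real.one_le_exp (by positivity)).trans hye
  set n := ⌊2 * y⌋₊ with hn
  have hn1 : (n : ℝ) ≤ 2 * y := Nat.floor_le (by linarith)
  have hn2 : y ≤ n := by
    have := Nat.lt_floor_add_one (2 * y)
    rw [← hn] at this
    linarith
  have hnexp : Real.exp (L / 2) ≤ n :=
    (Real.exp_le_exp.2 (by linarith)).trans (hye.trans hn2)
  have hn0 : (1 : ℝ) ≤ n := hy1.trans hn2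
  have hn0' : 1 ≤ n := by exact_mod_cast hn0
  have hyv : y * (16 * (H * L)) = v := by
    rw [hy]; field_simp
  have hnL : Real.log n ≤ L := by
    refine Real.log_le_log (by linarith) (hn1.trans ?_)
    have h16 : 2 ≤ 16 * (H * L) := by nlinarith
    nlinarith
  have hnL2 : L / 2 ≤ Real.log n := by
    rw [Real.le_log_iff_exp_le (by linarith)]
    exact hnexp
  have hHr : 16 * H ^ 2 * L ≤ r := by
    have e1 : H ^ 2 ≤ Real.exp (l / 4) := by
      have : Real.exp (l / 4) = Real.exp (l / 8) ^ 2 := by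
        rw [← Real.exp_nat_mul]; congr 1; push_cast; ring
      rw [this]
      exact pow_le_pow_left₀ hH0.le hHl 2
    have e2 : r = Real.exp (l / 4) * Real.exp (l / 4) * Real.exp (l / 2) := by
      rw [← Real.exp_add, ← Real.exp_add, ← hlr]; congr 1; ring
    rw [e2]
    exact mul_le_mul (mul_le_mul u4 e1 (by positivity) (Real.exp_pos _).le) hLl hL0.le
      (by positivity)
  refine ⟨k, n, hk2, ?_, ?_, ?_, ?_, ?_⟩
  · exact_mod_cast t5.trans hnexp
  · -- a ^ 2 H log n ≤ n
    refine le_trans ?_ hn2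
    have h1 : (a : ℝ) ^ 2 * H * Real.log n ≤ (a : ℝ) ^ 2 * (H * L) := by
      rw [mul_assoc]
      exact mul_le_mul_of_nonneg_left (mul_le_mul_of_nonneg_left hnL hH0.le) (by positivity)
    refine h1.trans ?_
    rw [hy, le_div_iff₀ (by positivity)]
    have h2 : (a : ℝ) ^ 2 * L ≤ a * S := by
      have : (a : ℝ) ^ 2 * L = a * (a * L) := by ring
      rw [this]
      exact mul_le_mul_of_nonneg_left haS (by linarith)
    calc (a : ℝ) ^ 2 * (H * L) * (16 * (H * L)) = (a : ℝ) ^ 2 * L * (16 * H ^ 2 * L) := by ring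
      _ ≤ a * S * r := mul_le_mul h2 hHr (by positivity) (by positivity)
      _ = v := hra
  · -- the number of states
    rw [← Real.exp_log (show (0 : ℝ) < 2 ^ S by positivity), Real.log_rpow (by norm_num)]
    refine Real.exp_lt_exp.2 ?_
    have hln2 : Real.log 2 < 1 := by
      have := Real.log_two_lt_d9
      linarith
    have h1 : S * Real.log 2 < S := by nlinarith
    refine lt_of_lt_of_le h1 ?_
    rw [le_div_iff₀ (by positivity)]
    refine le_trans ?_ hn2
    rw [hy, le_div_iff₀ (by positivity)]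
    calc S * (a * H) * (16 * (H * L)) = a * S * (16 * H ^ 2 * L) := by ring
      _ ≤ a * S * r := mul_le_mul_of_nonneg_left hHr (by positivity)
      _ = v := hra
  · -- the number of variables
    have hcast : ((n + n * k ^ (A * k) : ℕ) : ℝ) = n + n * H := by
      push_cast
      rw [hH]
    have hnn : 1 ≤ n + n * k ^ (A * k) := by omega
    have h1 := (trdSize hnn).1
    have h2 : Real.log ((n + n * k ^ (A * k) : ℕ) : ℝ) ≤ L := by
      refine Real.log_le_log (by exact_mod_cast hnn) ?_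
      rw [hcast]
      have e1 : (n : ℝ) + n * H ≤ 2 * (n * H) := by nlinarith
      have e2 : (n : ℝ) * H ≤ 2 * y * H := mul_le_mul_of_nonneg_right hn1 hH0.le
      have e3 : 2 * (2 * y * H) ≤ v := by
        rw [← hyv]
        have : 0 < y * H := by positivity
        nlinarith
      linarith
    have hl2a : (0.69 : ℝ) < Real.log 2 := by
      have := Real.log_two_gt_d9
      linarith
    have h3 : (Nat.size (n + n * k ^ (A * k)) : ℝ) ≤ 2 * L := by
      have e4 : Real.log ((n + n * k ^ (A * k) : ℕ) : ℝ) / Real.log 2 ≤ L / 0.69 :=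
        div_le_div₀ hL0.le h2 (by norm_num) hl2a.le
      have e5 : L / 0.69 + 1 ≤ 2 * L := by
        rw [div_add_one (by norm_num), div_le_iff₀ (by norm_num)]
        nlinarith
      linarith
    have h4 : 4 * (n : ℝ) * H * Nat.size (n + n * k ^ (A * k)) ≤ 4 * (2 * y) * H * (2 * L) := by
      refine mul_le_mul ?_ h3 (Nat.cast_nonneg _) (by positivity)
      refine mul_le_mul_of_nonneg_right ?_ hH0.le
      linarith
    refine h4.trans (le_of_eq ?_)
    rw [← hyv]
    ring
  · -- the time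
    have hnn : 1 ≤ n + n * k ^ (A * k) := by omega
    have h1 := (trdSize hnn).2
    have h2 : L / 2 ≤ Real.log ((n + n * k ^ (A * k) : ℕ) : ℝ) := by
      refine hnL2.trans (Real.log_le_log (by linarith) ?_)
      exact_mod_cast Nat.le_add_right _ _
    have hln2 : Real.log 2 < 1 := by
      have := Real.log_two_lt_d9
      linarith
    have hl2p : 0 < Real.log 2 := Real.log_pos (by norm_num)
    have h3 : L / 2 ≤ (Nat.size (n + n * k ^ (A * k)) : ℝ) := by
      refine le_trans ?_ h1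
      rw [le_div_iff₀ hl2p]
      nlinarith
    have h4 : (v : ℝ) / 8 ≤ 4 * (n : ℝ) * H * Nat.size (n + n * k ^ (A * k)) := by
      have e1 : 4 * y * H * (L / 2) ≤ 4 * (n : ℝ) * H * Nat.size (n + n * k ^ (A * k)) := by
        refine mul_le_mul ?_ h3 (by positivity) (by positivity)
        refine mul_le_mul_of_nonneg_right ?_ hH0.le
        linarith
      refine le_trans (le_of_eq ?_) e1
      rw [← hyv]
      ring
    have h5 : q / 2 * (v / 8) ≤ k * (4 * (n : ℝ) * H * Nat.size (n + n * k ^ (A * k))) :=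
      mul_le_mul hkq2 h4 (by positivity) hk0.le
    refine le_trans (le_of_eq ?_) h5
    rw [hq]
    have hg0 : g ≠ 0 := by
      have : 0 < g := by linarith
      exact this.ne'
    field_simp
    ring

theorem tTrd (h : ∃ A N : ℕ, 1 ≤ A ∧ ∀ n ≥ N, ∀ K m : ℕ, n * K ^ (A * K) ≤ m →
    ∃ c : GBits n m → Bool, PartK1 A n K (GVal n m c) ∧ PartK2 A n K (GBits n m) c (OddG n m) ∧
      PartK3 A n K (GBits n m) (OddG n m)) : StTrd := by
  obtain ⟨A, N, hA, h⟩ := h
  have hA0 : (0 : ℝ) < A := by exact_mod_cast hA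
  obtain ⟨V, hV⟩ := trdCore A N hA
  refine ⟨1 / (128 * A), by positivity, V, fun v hv a S ha haS hSv => ?_⟩
  obtain ⟨k, n, hk, hn, h1, h2, h3, h4⟩ := hV v hv a S ha haS hSv
  obtain ⟨-, -, -, h5⟩ := h n hn k (n * k ^ (A * k)) le_rfl
  set m := n * k ^ (A * k) with hm
  set s := Nat.size (n + m) with hs
  have hc1 : Fintype.card (GBits n m) = m * (2 * s) := by
    simp only [GBits, Fintype.card_prod, Fintype.card_fin, Fintype.card_bool, ← hs]
  have hc2 : Fintype.card (GBits n m ⊕ Fin (2 * k ^ (A * k) * s) × Fin n) =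
      4 * n * k ^ (A * k) * s := by
    rw [Fintype.card_sum, hc1, Fintype.card_prod, Fintype.card_fin, Fintype.card_fin, hm]
    ring
  have hc3 : ((Fintype.card (GBits n m ⊕ Fin (2 * k ^ (A * k) * s) × Fin n) : ℕ) : ℝ) =
      4 * (n : ℝ) * (k : ℝ) ^ (A * k) * s := by
    rw [hc2]
    push_cast
    ring
  refine ⟨n, m, 2 * k ^ (A * k) * s, ?_, ?_⟩
  · have : ((Fintype.card (GBits n m ⊕ Fin (2 * k ^ (A * k) * s) × Fin n) : ℕ) : ℝ) ≤ v := by
      rw [hc3]
      exact h3
    exact_mod_cast this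
  · intro T hT I _ P w hw hw1 hP hd hcard
    obtain ⟨z, hz⟩ := h5 k a hk le_rfl ha h1 (2 * k ^ (A * k) * s)
      (k * Fintype.card (GBits n m ⊕ Fin (2 * k ^ (A * k) * s) × Fin n)) (by
        rw [hc1, hm]
        exact le_of_eq (by ring)) rfl I P w hw hw1 hP hd
      (fun i b => lt_of_le_of_lt (hcard i b) h2)
    refine ⟨z, fun X hX => hz X (fun i hi => ?_)⟩
    obtain ⟨b, hb1, hb2⟩ := hX i hi
    refine ⟨b, accIn_mono ?_ hb1, hb2⟩
    have h6 : (T : ℝ) ≤ ((k * Fintype.card (GBits n m ⊕ Fin (2 * k ^ (A * k) * s) × Fin n) : ℕ) : ℝ) := by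
      rw [Nat.cast_mul, hc3]
      exact hT.trans h4
    exact_mod_cast h6

end SRBP
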